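import Pool.Agent.MP_36ea0a_gt.Haar

/-!
# The asymptotics of the intrinsic volumes of stretched bodies
-/

namespace Pool.Agent.MP_36ea0a_gt

open MeasureTheory Set
open scoped ENNReal RealInnerProductSpace

variable {n j m : ℕ}

/-- The normalised image of `u`. -/
noncomputable def dir (h : j ≤ n) (u : E n) (g : OG n) : E j :=
  ‖coordsL h g u‖⁻¹ • coordsL h g u

theorem norm_dir {h : j ≤ n} {u : E n} {g : OG n} (hg : coordsL h g u ≠ 0) :
    ‖dir h u g‖ = 1 := by
  rw [dir, norm_smul, norm_inv, norm_norm, inv_mul_cancel₀ (norm_ne_zero_iff.2 hg)]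

theorem eq_dir {h : j ≤ n} {u : E n} {g : OG n} (hg : coordsL h g u ≠ 0) :
    coordsL h g u = ‖coordsL h g u‖ • dir h u g := by
  rw [dir, smul_smul, mul_inv_cancel₀ (norm_ne_zero_iff.2 hg), one_smul]

theorem measurable_dir (h : j ≤ n) (u : E n) : Measurable (dir h u) := by
  have h1 : Continuous fun g : OG n => coordsL h g u :=
    (continuous_coordsL h).clm_apply continuous_const
  exact (h1.norm.measurable.inv).smul h1.measurable

/-- The projection of `mix`. -/
noncomputable def mixg (h : m + 1 ≤ n) (u : E n) (g : OG n) : E n →L[ℝ] E (m + 1) :=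
  mix u (coordsL h g) (dir h u g)

theorem continuous_mix (u : E n) :
    Continuous fun p : (E n →L[ℝ] E (m + 1)) × E (m + 1) => mix u p.1 p.2 := by
  rw [continuous_clm_apply]
  intro x
  simp only [mix_apply]
  have h1 : Continuous fun p : (E n →L[ℝ] E (m + 1)) × E (m + 1) => p.1 x :=
    continuous_fst.clm_apply continuous_const
  have h2 : Continuous fun p : (E n →L[ℝ] E (m + 1)) × E (m + 1) => ⟪u, x⟫ - ⟪p.2, p.1 x⟫ :=
    continuous_const.sub (continuous_snd.inner h1)
  exact h1.add (h2.fun_smul continuous_snd)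

theorem measurable_mix (u : E n) :
    Measurable fun p : (E n →L[ℝ] E (m + 1)) × E (m + 1) => mix u p.1 p.2 :=
  (continuous_mix u).measurable

theorem measurable_pair (h : m + 1 ≤ n) (u : E n) :
    Measurable fun g => ((coordsL h g, dir h u g) : (E n →L[ℝ] E (m + 1)) × E (m + 1)) :=
  Measurable.prodMk (continuous_coordsL h).measurable (measurable_dir h u)

theorem mixg_eq (h : m + 1 ≤ n) (u : E n) :
    mixg h u = (fun p : (E n →L[ℝ] E (m + 1)) × E (m + 1) => mix u p.1 p.2) ∘
      fun g => (coordsL h g, dir h u g) := rfl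

theorem measurable_mixg (h : m + 1 ≤ n) (u : E n) : Measurable (mixg h u) := by
  rw [mixg_eq]
  exact (measurable_mix u).comp (measurable_pair h u)

/-- The integrand of `Pv`. -/
noncomputable def pv (h : m + 1 ≤ n) (u : E n) (K : Set (E n)) (g : OG n) : ℝ≥0∞ :=
  ENNReal.ofReal ‖coordsL h g u‖ * volume (mixg h u g '' K)

theorem measurable_pv (h : m + 1 ≤ n) (u : E n) {K : Set (E n)} (hK : IsCompact K) :
    Measurable (pv h u K) := by
  have h1 : Continuous fun g : OG n => coordsL h g u :=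
    (continuous_coordsL h).clm_apply continuous_const
  exact (h1.norm.measurable.ennreal_ofReal).mul
    ((measurable_volume_image hK).comp (measurable_mixg h u))

/-- The leading coefficient of the unnormalised intrinsic volume of the stretched body. -/
noncomputable def Pv (h : m + 1 ≤ n) (u : E n) (K : Set (E n)) : ℝ≥0∞ :=
  ∫⁻ g, pv h u K g ∂(haarOG n)

theorem Pv_mono (h : m + 1 ≤ n) (u : E n) {K L : Set (E n)} (hKL : K ⊆ L) :
    Pv h u K ≤ Pv h u L :=
  lintegral_mono fun _ => mul_le_mul_right (measure_mono (image_mono hKL)) _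

/-- The total error term. -/
noncomputable def Err (m : ℕ) (R : ℝ) : ℝ≥0∞ :=
  err m R + volume (Metric.closedBall (0 : E (m + 1)) R)

theorem Err_ne_top (m : ℕ) (R : ℝ) : Err m R ≠ ⊤ :=
  ENNReal.add_ne_top.2 ⟨err_ne_top m R, measure_closedBall_lt_top.ne⟩

theorem Iv_stretch_le (h : m + 1 ≤ n) {u : E n} (hu : ‖u‖ = 1) {K : Set (E n)}
    (hK : IsCompact K) (hv : Convex ℝ K) {R : ℝ} (hR : ∀ k ∈ K, ‖k‖ ≤ R) {Λ : ℝ} (hΛ : 0 ≤ Λ) :
    Iv h (stretch u Λ '' K) ≤ ENNReal.ofReal Λ * Pv h u K + Err m R := by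
  have hpt : ∀ g, volume (coordsL h g '' (stretch u Λ '' K)) ≤
      ENNReal.ofReal Λ * pv h u K g + Err m R := by
    intro g
    rw [image_image]
    by_cases hg : coordsL h g u = 0
    · have h1 : (fun x => coordsL h g (stretch u Λ x)) '' K = coordsL h g '' K := by
        refine image_congr fun x _ => ?_
        rw [stretch_apply, map_add, map_smul, hg, smul_zero, add_zero]
      rw [h1]
      exact (volume_coordsL_le h g hR).trans (le_add_self.trans le_add_self)
    · have := shadow_upper hu (norm_coordsL_le h g) (norm_dir hg) (eq_dir hg) hK hv hR hΛ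
      refine this.trans ?_
      exact add_le_add le_rfl le_self_add
  refine (lintegral_mono hpt).trans ?_
  rw [lintegral_add_right _ measurable_const, lintegral_const_mul' _ _ ENNReal.ofReal_ne_top,
    lintegral_const, measure_univ, mul_one]
  rfl

/-- The reflection in the hyperplane `u^⊥` as an isometry. -/
noncomputable def reflIso (u : E n) : E n ≃ₗᵢ[ℝ] E n := (ℝ ∙ u)ᗮ.reflection

theorem reflIso_apply {u : E n} (hu : ‖u‖ = 1) (x : E n) : reflIso u x = refl u x := by
  rw [reflIso, Submodule.reflection_orthogonal_apply, Submodule.reflection_singleton_apply, refl,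
    hu]
  simp only [RCLike.ofReal_real_eq_id, id_eq, one_pow, div_one, neg_sub]
  rw [two_mul, add_smul, two_nsmul]

theorem reflIso_stretch {u : E n} (hu : ‖u‖ = 1) (Λ : ℝ) (x : E n) :
    reflIso u (stretch u Λ x) = stretch u (-Λ) x := by
  rw [reflIso_apply hu, refl, inner_stretch hu, stretch_apply, stretch_apply, add_sub_assoc,
    ← sub_smul]
  congr 2
  ring

theorem Iv_stretch_neg (h : j ≤ n) {u : E n} (hu : ‖u‖ = 1) (Λ : ℝ) (K : Set (E n)) :
    Iv h (stretch u (-Λ) '' K) = Iv h (stretch u Λ '' K) := by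
  rw [← Iv_iso h (reflIso u) (stretch u Λ '' K), image_image]
  simp only [reflIso_stretch hu]

theorem le_Iv_stretch (h : m + 1 ≤ n) {u : E n} (hu : ‖u‖ = 1) {K : Set (E n)}
    (hK : IsCompact K) (hv : Convex ℝ K) {Λ : ℝ} (hΛ : 0 ≤ Λ) :
    ENNReal.ofReal Λ * Pv h u K ≤ Iv h (stretch u Λ '' K) := by
  have hpt : ∀ g, 2 * (ENNReal.ofReal Λ * pv h u K g) ≤
      volume (coordsL h g '' (stretch u Λ '' K)) +
        volume (coordsL h g '' (stretch u (-Λ) '' K)) := by
    intro g
    rw [image_image, image_image]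
    by_cases hg : coordsL h g u = 0
    · rw [pv, hg, norm_zero, ENNReal.ofReal_zero, zero_mul, mul_zero, mul_zero]
      exact zero_le
    · exact shadow_lower (norm_dir hg) (eq_dir hg) hK hv hΛ
  have h1 : 2 * (ENNReal.ofReal Λ * Pv h u K) ≤ 2 * Iv h (stretch u Λ '' K) := by
    have h2 := lintegral_mono (μ := haarOG n) hpt
    rw [lintegral_add_left (measurable_coordsL h (hK.image (stretch u Λ).continuous)),
      lintegral_const_mul' _ _ ENNReal.ofNat_ne_top,
      lintegral_const_mul' _ _ ENNReal.ofReal_ne_top] at h2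
    have h3 := Iv_stretch_neg h hu Λ K
    unfold Iv at h3
    rw [h3, ← two_mul] at h2
    exact h2
  exact (ENNReal.mul_le_mul_iff_right two_ne_zero ENNReal.ofNat_ne_top).1 h1

theorem Pv_compare (h : m + 1 ≤ n) {u : E n} (hu : ‖u‖ = 1) {T S : Set (E n)} (hT : IsCompact T)
    (hTv : Convex ℝ T) (hS : IsCompact S) (hT0 : ∀ k ∈ T, 0 ≤ ⟪u, k⟫)
    (hTS : ∀ k ∈ T, stretch u (1 / 2) k ∈ S ∧ stretch u (-(1 / 2)) k ∈ S) :
    Pv h u T ≤ Pv h u S := by
  refine lintegral_mono fun g => ?_
  by_cases hg : coordsL h g u = 0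
  · rw [pv, pv, hg, norm_zero, ENNReal.ofReal_zero, zero_mul, zero_mul]
  · exact mul_le_mul_right
      (shadow_compare hu (norm_dir hg) hT hTv hS hT0 hTS (eq_dir hg)) _

end Pool.Agent.MP_36ea0a_gt
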