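import Pool.Agent.MP_36ea0a_gt.Avg

/-!
# Boxes and wedges with respect to an orthonormal basis
-/

namespace Pool.Agent.MP_36ea0a_gt

open MeasureTheory Set
open scoped ENNReal RealInnerProductSpace

variable {n j m : ℕ}

/-- An orthonormal basis. -/
abbrev OB (n : ℕ) := OrthonormalBasis (Fin n) ℝ (E n)

/-- The embedding of `ℝʲ` given by the first `j` vectors of an orthonormal basis. -/
noncomputable def emb (h : j ≤ n) (b : OB n) : E j →L[ℝ] E n :=
  LinearMap.toContinuousLinearMap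
    { toFun := fun s => ∑ i, s i • b (Fin.castLE h i)
      map_add' := fun s t => by simp [add_smul, Finset.sum_add_distrib]
      map_smul' := fun c s => by simp [mul_smul, Finset.smul_sum] }

theorem emb_apply (h : j ≤ n) (b : OB n) (s : E j) : emb h b s = ∑ i, s i • b (Fin.castLE h i) :=
  rfl

theorem inner_emb (h : j ≤ n) (b : OB n) (s : E j) (i : Fin j) :
    ⟪b (Fin.castLE h i), emb h b s⟫ = s i := by
  rw [emb_apply, inner_sum]
  simp only [inner_smul_right, b.inner_eq_ite, mul_ite, mul_one, mul_zero]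
  rw [Finset.sum_eq_single i]
  · simp
  · intro k _ hk
    rw [if_neg]
    intro hh
    exact hk (Fin.castLE_injective h hh).symm
  · simp

theorem inner_emb_of_ge (h : j ≤ n) (b : OB n) (s : E j) (i : Fin n) (hi : j ≤ (i : ℕ)) :
    ⟪b i, emb h b s⟫ = 0 := by
  rw [emb_apply, inner_sum]
  refine Finset.sum_eq_zero fun k _ => ?_
  rw [inner_smul_right, b.inner_eq_ite, if_neg, mul_zero]
  intro hh
  have : (i : ℕ) = k := by rw [hh]; rfl
  omega

/-- The element of `O(n)` given by an orthonormal basis. -/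
noncomputable def ofB (b : OB n) : OG n := ofIso b.repr.symm

theorem frame_ofIso (φ : E n ≃ₗᵢ[ℝ] E n) (i : Fin n) :
    frame (ofIso φ) i = φ (EuclideanSpace.single i 1) := rfl

theorem frame_ofB (b : OB n) (i : Fin n) : frame (ofB b) i = b i := by
  rw [ofB, frame_ofIso, OrthonormalBasis.repr_symm_single]

theorem coordsL_ofB (h : j ≤ n) (b : OB n) (x : E n) (i : Fin j) :
    coordsL h (ofB b) x i = ⟪b (Fin.castLE h i), x⟫ := by
  rw [coordsL_apply', frame_ofB]

/-- The constant in the formula for the intrinsic volume of `j`-dimensional bodies. -/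
noncomputable def kap (h : j ≤ n) (b : OB n) : ℝ≥0∞ :=
  ∫⁻ g, ENNReal.ofReal |((coordsL h g).comp (emb h b)).det| ∂(haarOG n)

theorem Iv_emb (h : j ≤ n) (b : OB n) (a : E n) (B : Set (E j)) :
    Iv h ((fun s => a + emb h b s) '' B) = kap h b * volume B := by
  have h1 : (fun s => a + emb h b s) '' B = (fun x => a + x) '' (emb h b '' B) := by
    rw [image_image]
  rw [h1, Iv_translate]
  have h2 : ∀ g, volume (coordsL h g '' (emb h b '' B)) =
      ENNReal.ofReal |((coordsL h g).comp (emb h b)).det| * volume B := by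
    intro g
    rw [image_image]
    exact Measure.addHaar_image_continuousLinearMap volume ((coordsL h g).comp (emb h b)) B
  unfold Iv kap
  simp only [h2]
  refine lintegral_mul_const _ ?_
  have hc : Continuous fun g : OG n => (coordsL h g).comp (emb h b) :=
    (continuous_coordsL h).clm_comp continuous_const
  exact ((ContinuousLinearMap.continuous_det.comp hc).abs.measurable).ennreal_ofReal

theorem kap_pos (h : j ≤ n) (b : OB n) : 0 < kap h b := by
  have hc : Continuous fun g : OG n => ENNReal.ofReal |((coordsL h g).comp (emb h b)).det| := by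
    have hc : Continuous fun g : OG n => (coordsL h g).comp (emb h b) :=
      (continuous_coordsL h).clm_comp continuous_const
    exact ENNReal.continuous_ofReal.comp (ContinuousLinearMap.continuous_det.comp hc).abs
  rw [kap, lintegral_pos_iff_support hc.measurable]
  refine (hc.isOpen_support).measure_pos _ ⟨ofB b, ?_⟩
  have h1 : (coordsL h (ofB b)).comp (emb h b) = ContinuousLinearMap.id ℝ (E j) := by
    ext s i
    rw [ContinuousLinearMap.comp_apply, coordsL_ofB, inner_emb]
    rfl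
  rw [Function.mem_support, h1, ContinuousLinearMap.det]
  simp

theorem kap_ne_top (h : j ≤ n) (b : OB n) : kap h b ≠ ⊤ := by
  intro hk
  have h1 := Iv_emb h b 0 (Metric.closedBall 0 1)
  have h2 : Iv h ((fun s => 0 + emb h b s) '' Metric.closedBall 0 1) < ⊤ := by
    refine Iv_lt_top h ((isCompact_closedBall _ _).image ?_)
    exact continuous_const.add (emb h b).continuous
  rw [h1, hk, ENNReal.top_mul] at h2
  · exact lt_irrefl _ h2
  · exact (Metric.measure_closedBall_pos _ _ one_pos).ne'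

/-! ### Boxes -/

/-- A box with respect to the basis `b`. -/
def bbox (b : OB n) (lo hi : Fin n → ℝ) : Set (E n) := {k | ∀ i, ⟪b i, k⟫ ∈ Icc (lo i) (hi i)}

theorem bbox_isCompact (b : OB n) (lo hi : Fin n → ℝ) : IsCompact (bbox b lo hi) := by
  have h1 : bbox b lo hi = (fun x : Fin n → ℝ => b.repr.symm (WithLp.toLp 2 x)) '' Icc lo hi := by
    ext k
    constructor
    · intro hk
      refine ⟨fun i => ⟪b i, k⟫, ⟨fun i => (hk i).1, fun i => (hk i).2⟩, ?_⟩
      have : (WithLp.toLp 2 fun i => ⟪b i, k⟫) = b.repr k := by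
        ext i
        rw [b.repr_apply_apply]
      simp only [this, LinearIsometryEquiv.symm_apply_apply]
    · rintro ⟨x, hx, rfl⟩ i
      rw [← b.repr_apply_apply, LinearIsometryEquiv.apply_symm_apply]
      exact ⟨hx.1 i, hx.2 i⟩
  rw [h1]
  exact isCompact_Icc.image (b.repr.symm.continuous.comp (PiLp.continuous_toLp 2 _))

theorem bbox_convex (b : OB n) (lo hi : Fin n → ℝ) : Convex ℝ (bbox b lo hi) := by
  have : bbox b lo hi = ⋂ i, (innerSL ℝ (b i) : E n →ₗ[ℝ] ℝ) ⁻¹' Icc (lo i) (hi i) := by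
    ext k
    simp [bbox]
  rw [this]
  exact convex_iInter fun i => (convex_Icc _ _).linear_preimage _

theorem exists_coords (b : OB n) (x : Fin n → ℝ) : ∃ k : E n, ∀ i, ⟪b i, k⟫ = x i := by
  refine ⟨b.repr.symm (WithLp.toLp 2 x), fun i => ?_⟩
  rw [← b.repr_apply_apply, LinearIsometryEquiv.apply_symm_apply]

theorem ext_coords (b : OB n) {k l : E n} (h : ∀ i, ⟪b i, k⟫ = ⟪b i, l⟫) : k = l := by
  apply b.repr.injective
  ext i
  rw [b.repr_apply_apply, b.repr_apply_apply, h i]

theorem volume_box (lo hi : Fin j → ℝ) :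
    volume {s : E j | ∀ i, s i ∈ Icc (lo i) (hi i)} = ∏ i, ENNReal.ofReal (hi i - lo i) := by
  rw [← Real.volume_Icc_pi, ← (PiLp.volume_preserving_ofLp (Fin j)).measure_preimage
    measurableSet_Icc.nullMeasurableSet]
  congr 1
  ext s
  simp only [mem_ofPred_eq, mem_preimage, mem_Icc, Pi.le_def]
  exact ⟨fun h => ⟨fun i => (h i).1, fun i => (h i).2⟩, fun h i => ⟨h.1 i, h.2 i⟩⟩

/-- The intrinsic volume of a `j`-dimensional box. -/
theorem Iv_bbox (h : j ≤ n) (b : OB n) (lo hi : Fin n → ℝ) (hlh : ∀ i : Fin n, j ≤ (i : ℕ) →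
    lo i = hi i) : Iv h (bbox b lo hi) =
      kap h b * ∏ i : Fin j, ENNReal.ofReal (hi (Fin.castLE h i) - lo (Fin.castLE h i)) := by
  obtain ⟨a, ha⟩ := exists_coords b fun i => if j ≤ (i : ℕ) then lo i else 0
  have h1 : bbox b lo hi = (fun s => a + emb h b s) ''
      {s : E j | ∀ i, s i ∈ Icc (lo (Fin.castLE h i)) (hi (Fin.castLE h i))} := by
    ext k
    constructor
    · intro hk
      refine ⟨WithLp.toLp 2 fun i => ⟪b (Fin.castLE h i), k⟫, fun i => hk _, ?_⟩
      apply ext_coords b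
      intro i
      rw [inner_add_right, ha]
      by_cases hi' : j ≤ (i : ℕ)
      · rw [if_pos hi', inner_emb_of_ge h b _ i hi', add_zero]
        have := hk i
        rw [← hlh i hi'] at this
        exact (le_antisymm this.2 this.1).symm
      · rw [if_neg hi', zero_add]
        have : i = Fin.castLE h ⟨i, not_le.1 hi'⟩ := rfl
        rw [this, inner_emb]
    · rintro ⟨s, hs, rfl⟩ i
      rw [inner_add_right, ha]
      by_cases hi' : j ≤ (i : ℕ)
      · rw [if_pos hi', inner_emb_of_ge h b _ i hi', add_zero]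
        exact ⟨le_rfl, (hlh i hi').le⟩
      · rw [if_neg hi', zero_add]
        have : i = Fin.castLE h ⟨i, not_le.1 hi'⟩ := rfl
        rw [this, inner_emb]
        exact hs _
  rw [h1, Iv_emb, volume_box]

theorem norm_le_sum (b : OB n) (x : E n) : ‖x‖ ≤ ∑ i, |⟪b i, x⟫| := by
  conv_lhs => rw [← b.sum_repr x]
  refine (norm_sum_le _ _).trans (le_of_eq ?_)
  refine Finset.sum_congr rfl fun i _ => ?_
  rw [norm_smul, b.repr_apply_apply, b.norm_eq_one, mul_one, Real.norm_eq_abs]

/-! ### Wedges -/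

/-- A box with slanted top and bottom. -/
def wedge (b : OB n) (iu iv : Fin n) (lo hi : Fin n → ℝ) (α β α' β' : ℝ) : Set (E n) :=
  {k | (∀ i, i ≠ iu → ⟪b i, k⟫ ∈ Icc (lo i) (hi i)) ∧
    ⟪b iu, k⟫ ∈ Icc (α + β * ⟪b iv, k⟫) (α' + β' * ⟪b iv, k⟫)}

variable {b : OB n} {iu iv : Fin n} {lo hi : Fin n → ℝ} {α β α' β' : ℝ}

theorem wedge_convex : Convex ℝ (wedge b iu iv lo hi α β α' β') := by
  have : wedge b iu iv lo hi α β α' β' =
      (⋂ i, ⋂ (_ : i ≠ iu), (innerSL ℝ (b i) : E n →ₗ[ℝ] ℝ) ⁻¹' Icc (lo i) (hi i)) ∩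
        ((innerSL ℝ (b iu) - β • innerSL ℝ (b iv) : E n →L[ℝ] ℝ) : E n →ₗ[ℝ] ℝ) ⁻¹' Ici α ∩
        ((innerSL ℝ (b iu) - β' • innerSL ℝ (b iv) : E n →L[ℝ] ℝ) : E n →ₗ[ℝ] ℝ) ⁻¹' Iic α' := by
    ext k
    simp only [wedge, mem_ofPred_eq, mem_inter_iff, mem_iInter, mem_preimage,
      ContinuousLinearMap.coe_coe, sub_apply, innerSL_apply_apply,
      smul_apply, smul_eq_mul, mem_Icc, mem_Ici, mem_Iic]
    constructor
    · rintro ⟨h1, h2, h3⟩
      exact ⟨⟨h1, by linarith⟩, by linarith⟩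
    · rintro ⟨⟨h1, h2⟩, h3⟩
      exact ⟨h1, by linarith, by linarith⟩
  rw [this]
  exact ((convex_iInter fun i => convex_iInter fun _ => (convex_Icc _ _).linear_preimage _).inter
    ((convex_Ici _).linear_preimage _)).inter ((convex_Iic _).linear_preimage _)

theorem wedge_isClosed : IsClosed (wedge b iu iv lo hi α β α' β') := by
  have : wedge b iu iv lo hi α β α' β' =
      (⋂ i, ⋂ (_ : i ≠ iu), (fun k => ⟪b i, k⟫) ⁻¹' Icc (lo i) (hi i)) ∩
        {k | α + β * ⟪b iv, k⟫ ≤ ⟪b iu, k⟫} ∩ {k | ⟪b iu, k⟫ ≤ α' + β' * ⟪b iv, k⟫} := by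
    ext k
    simp only [wedge, mem_ofPred_eq, mem_inter_iff, mem_iInter, mem_preimage, mem_Icc]
    tauto
  have hc : ∀ i, Continuous fun k : E n => ⟪b i, k⟫ := fun i => continuous_const.inner continuous_id
  rw [this]
  refine ((isClosed_iInter fun i => isClosed_iInter fun _ => isClosed_Icc.preimage (hc i)).inter
    ?_).inter ?_
  · exact isClosed_le (continuous_const.add (continuous_const.mul (hc iv))) (hc iu)
  · exact isClosed_le (hc iu) (continuous_const.add (continuous_const.mul (hc iv)))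

theorem wedge_isCompact (huv : iv ≠ iu) : IsCompact (wedge b iu iv lo hi α β α' β') := by
  set M : ℝ := |α| + |α'| + (|β| + |β'|) * (|lo iv| + |hi iv|) with hM
  refine (bbox_isCompact b (fun i => if i = iu then -M else lo i)
    (fun i => if i = iu then M else hi i)).of_isClosed_subset wedge_isClosed ?_
  rintro k ⟨h1, h2⟩ i
  change ⟪b i, k⟫ ∈ Icc (if i = iu then -M else lo i) (if i = iu then M else hi i)
  by_cases hi' : i = iu
  · subst hi'
    rw [if_pos rfl, if_pos rfl]
    have h3 := h1 iv huv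
    have h4 : |⟪b iv, k⟫| ≤ |lo iv| + |hi iv| := by
      rw [abs_le]
      constructor
      · linarith [h3.1, neg_abs_le (lo iv), abs_nonneg (hi iv)]
      · linarith [h3.2, le_abs_self (hi iv), abs_nonneg (lo iv)]
    have h5 : |β * ⟪b iv, k⟫| ≤ |β| * (|lo iv| + |hi iv|) := by
      rw [abs_mul]; exact mul_le_mul_of_nonneg_left h4 (abs_nonneg _)
    have h6 : |β' * ⟪b iv, k⟫| ≤ |β'| * (|lo iv| + |hi iv|) := by
      rw [abs_mul]; exact mul_le_mul_of_nonneg_left h4 (abs_nonneg _)
    have h7 : 0 ≤ |β| * (|lo iv| + |hi iv|) := by positivity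
    have h8 : 0 ≤ |β'| * (|lo iv| + |hi iv|) := by positivity
    constructor
    · have := h2.1
      rw [hM]
      nlinarith [neg_abs_le α, neg_abs_le (β * ⟪b iv, k⟫), abs_nonneg α']
    · have := h2.2
      rw [hM]
      nlinarith [le_abs_self α', le_abs_self (β' * ⟪b iv, k⟫), abs_nonneg α]
  · rw [if_neg hi', if_neg hi']
    exact h1 i hi'

theorem inner_stretch_of_ne {i : Fin n} (hi' : i ≠ iu) (Λ : ℝ) (x : E n) :
    ⟪b i, stretch (b iu) Λ x⟫ = ⟪b i, x⟫ := by
  rw [stretch_apply, inner_add_right, inner_smul_right, b.inner_eq_ite, if_neg hi', mul_zero,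
    add_zero]

theorem inner_stretch_self (Λ : ℝ) (x : E n) : ⟪b iu, stretch (b iu) Λ x⟫ = Λ * ⟪b iu, x⟫ :=
  inner_stretch (b.norm_eq_one iu) Λ x

theorem stretch_stretch (Λ Λ' : ℝ) (x : E n) :
    stretch (b iu) Λ (stretch (b iu) Λ' x) = stretch (b iu) (Λ * Λ') x := by
  apply ext_coords b
  intro i
  by_cases hi' : i = iu
  · subst hi'
    rw [inner_stretch_self, inner_stretch_self, inner_stretch_self, mul_assoc]
  · rw [inner_stretch_of_ne hi', inner_stretch_of_ne hi', inner_stretch_of_ne hi']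

theorem stretch_one (u x : E n) : stretch u 1 x = x := by
  rw [stretch_apply]; simp

theorem stretch_wedge (huv : iv ≠ iu) {Λ : ℝ} (hΛ : 0 < Λ) :
    stretch (b iu) Λ '' wedge b iu iv lo hi α β α' β' =
      wedge b iu iv lo hi (Λ * α) (Λ * β) (Λ * α') (Λ * β') := by
  ext k
  constructor
  · rintro ⟨x, ⟨h1, h2⟩, rfl⟩
    refine ⟨fun i hi' => ?_, ?_⟩
    · rw [inner_stretch_of_ne hi']; exact h1 i hi'
    · rw [inner_stretch_self, inner_stretch_of_ne huv]
      constructor
      · nlinarith [h2.1]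
      · nlinarith [h2.2]
  · rintro ⟨h1, h2⟩
    refine ⟨stretch (b iu) Λ⁻¹ k, ⟨fun i hi' => ?_, ?_⟩, ?_⟩
    · rw [inner_stretch_of_ne hi']; exact h1 i hi'
    · rw [inner_stretch_self, inner_stretch_of_ne huv]
      have h3 : Λ⁻¹ * (Λ * α + Λ * β * ⟪b iv, k⟫) = α + β * ⟪b iv, k⟫ := by
        field_simp
      have h4 : Λ⁻¹ * (Λ * α' + Λ * β' * ⟪b iv, k⟫) = α' + β' * ⟪b iv, k⟫ := by
        field_simp
      rw [← h3, ← h4]
      exact ⟨mul_le_mul_of_nonneg_left h2.1 (inv_nonneg.2 hΛ.le),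
        mul_le_mul_of_nonneg_left h2.2 (inv_nonneg.2 hΛ.le)⟩
    · rw [stretch_stretch, mul_inv_cancel₀ hΛ.ne', stretch_one]

end Pool.Agent.MP_36ea0a_gt
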