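import Pool.Agent.MP_36ea0a_gt.Strict

/-!
# The core of the argument
-/

namespace Pool.Agent.MP_36ea0a_gt

open MeasureTheory Set Filter Topology
open scoped ENNReal RealInnerProductSpace

variable {n j m : ℕ}

/-- A symmetrization as in the problem, defined on all convex bodies. -/
structure Core (h : j ≤ n) (u : E n) (S : ConvexBody (E n) → ConvexBody (E n)) : Prop where
  symm : ∀ K, ∀ k ∈ (S K : Set (E n)), refl u k ∈ (S K : Set (E n))
  mono : ∀ K L : ConvexBody (E n), (K : Set (E n)) ⊆ L → (S K : Set (E n)) ⊆ S L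
  pres : ∀ K : ConvexBody (E n), Iv h (S K : Set (E n)) = Iv h (K : Set (E n))
  proj : ∀ K : ConvexBody (E n), projH u '' (S K : Set (E n)) = projH u '' (K : Set (E n))

theorem gap {A B Er : ℝ≥0∞} (hBA : B < A) (hEr : Er ≠ ⊤) :
    ∀ᶠ Λ : ℕ in atTop, ENNReal.ofReal Λ * B + Er < ENNReal.ofReal Λ * A := by
  obtain ⟨r, hr, hrA⟩ := ENNReal.lt_iff_exists_add_pos_lt.1 hBA
  obtain ⟨N, hN⟩ := exists_nat_gt (Er.toReal / r)
  filter_upwards [eventually_ge_atTop N, eventually_ge_atTop 1] with Λ hΛ hΛ1
  have h1 : Er < ENNReal.ofReal Λ * r := by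
    rw [← ENNReal.ofReal_toReal hEr, ← ENNReal.ofReal_coe_nnreal,
      ← ENNReal.ofReal_mul (Nat.cast_nonneg _), ENNReal.ofReal_lt_ofReal_iff]
    · rw [div_lt_iff₀ (by exact_mod_cast hr)] at hN
      refine hN.trans_le ?_
      exact mul_le_mul_of_nonneg_right (by exact_mod_cast hΛ) r.2
    · have : (0 : ℝ) < Λ := by exact_mod_cast hΛ1
      have : (0 : ℝ) < r := by exact_mod_cast hr
      positivity
  calc ENNReal.ofReal Λ * B + Er < ENNReal.ofReal Λ * B + ENNReal.ofReal Λ * r :=
        ENNReal.add_lt_add_left (ENNReal.mul_ne_top ENNReal.ofReal_ne_top (ne_top_of_lt hBA)) h1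
    _ = ENNReal.ofReal Λ * (B + r) := by rw [mul_add]
    _ ≤ ENNReal.ofReal Λ * A := mul_le_mul_right hrA.le _

theorem inner_projH_of_ne {b : OB n} {iu i : Fin n} (h : i ≠ iu) (x : E n) :
    ⟪b i, projH (b iu) x⟫ = ⟪b i, x⟫ := by
  rw [projH, inner_sub_right, inner_smul_right, b.inner_eq_ite, if_neg h, mul_zero, sub_zero]

/-- A point of a symmetric convex set may be moved towards the hyperplane. -/
theorem fill {u : E n} {C : Set (E n)} (hC : Convex ℝ C) (hs : ∀ k ∈ C, refl u k ∈ C) {p : E n}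
    (hp : p ∈ C) {t : ℝ} (ht : |t| ≤ |⟪u, p⟫|) : p + (t - ⟪u, p⟫) • u ∈ C := by
  set a := ⟪u, p⟫ with ha
  rcases eq_or_ne a 0 with h0 | h0
  · rw [h0, abs_zero, abs_le] at ht
    have : t = 0 := by linarith [ht.1, ht.2]
    rw [h0, this]
    simpa using hp
  · have h1 : |t / a| ≤ 1 := by
      rw [abs_div]
      exact div_le_one_of_le₀ ht (abs_nonneg _)
    obtain ⟨h2, h3⟩ := abs_le.1 h1
    have h4 := hC hp (hs p hp) (a := (1 + t / a) / 2) (b := (1 - t / a) / 2) (by linarith)
      (by linarith) (by ring)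
    convert h4 using 1
    rw [refl, ← ha, smul_sub, smul_smul, ← add_sub_assoc, ← add_smul]
    have e1 : (1 + t / a) / 2 + (1 - t / a) / 2 = 1 := by ring
    have e2 : (1 - t / a) / 2 * (2 * a) = a - t := by
      field_simp
    rw [e1, e2, one_smul, sub_smul, sub_smul]
    abel

section

variable (hm : 1 ≤ m) (hn : m + 2 ≤ n) (b : OB n) (h1 : m + 1 ≤ n)

/-- The upper bounds of the coordinates. -/
def hiO (n m : ℕ) (ε : ℝ) : Fin n → ℝ :=
  fun i => if (i : ℕ) < m then 1 else if (i : ℕ) = m + 1 then ε else 0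

/-- The wedges over the fixed base. -/
noncomputable def Wd (hn : m + 2 ≤ n) (b : OB n) (ε α β α' β' : ℝ) : Set (E n) :=
  wedge b (iU hn) (iV hn) (fun _ => 0) (hiO n m ε) α β α' β'

theorem mem_Wd {ε α β α' β' : ℝ} {k : E n} : k ∈ Wd hn b ε α β α' β' ↔
    (∀ i, i ≠ iU hn → ⟪b i, k⟫ ∈ Icc 0 (hiO n m ε i)) ∧
    ⟪b (iU hn), k⟫ ∈ Icc (α + β * ⟪b (iV hn), k⟫) (α' + β' * ⟪b (iV hn), k⟫) := Iff.rfl

theorem hiO_iV (ε : ℝ) : hiO n m ε (iV hn) = ε := by
  simp [hiO, iV]

theorem Wd_isCompact {ε α β α' β' : ℝ} : IsCompact (Wd hn b ε α β α' β') :=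
  wedge_isCompact (iV_ne_iU hn)

theorem Wd_convex {ε α β α' β' : ℝ} : Convex ℝ (Wd hn b ε α β α' β') := wedge_convex

theorem stretch_Wd {ε α β α' β' : ℝ} {Λ : ℝ} (hΛ : 0 < Λ) :
    stretch (b (iU hn)) Λ '' Wd hn b ε α β α' β' =
      Wd hn b ε (Λ * α) (Λ * β) (Λ * α') (Λ * β') :=
  stretch_wedge (iV_ne_iU hn) hΛ

variable {S : ConvexBody (E n) → ConvexBody (E n)}

/-- The symmetrization contains the Steiner symmetral. -/
theorem steiner (hS : Core h1 (b (iU hn)) S) {ε α β α' β' : ℝ} (T : ConvexBody (E n))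
    (hT : (T : Set (E n)) = Wd hn b ε α β α' β') {k : E n}
    (hk : ∀ i, i ≠ iU hn → ⟪b i, k⟫ ∈ Icc 0 (hiO n m ε i))
    (hku : |⟪b (iU hn), k⟫| ≤
      ((α' + β' * ⟪b (iV hn), k⟫) - (α + β * ⟪b (iV hn), k⟫)) / 2) :
    k ∈ (S T : Set (E n)) := by
  set u := b (iU hn) with hu
  set y0 := ⟪b (iV hn), k⟫ with hy0
  set z0 := ((α' + β' * y0) - (α + β * y0)) / 2 with hz0
  have hz0' : 0 ≤ z0 := (abs_nonneg _).trans hku
  have hvu := iV_ne_iU hn
  -- the top point
  obtain ⟨p, hp⟩ := exists_coords b fun i => if i = iU hn then z0 else ⟪b i, k⟫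
  have hpu : ⟪u, p⟫ = z0 := by rw [hu, hp, if_pos rfl]
  have hpi : ∀ i, i ≠ iU hn → ⟪b i, p⟫ = ⟪b i, k⟫ := fun i hi => by rw [hp, if_neg hi]
  have huu : ⟪u, u⟫ = 1 := by rw [hu, real_inner_self_eq_norm_sq, b.norm_eq_one, one_pow]
  have hbu : ∀ i, i ≠ iU hn → ⟪b i, u⟫ = 0 := fun i hi => by
    rw [hu, b.inner_eq_ite, if_neg hi]
  have hred : p ∈ (S T : Set (E n)) → k ∈ (S T : Set (E n)) := by
    intro hpS
    have := fill (S T).convex (hS.symm T) hpS (t := ⟪u, k⟫) (by
      rw [hpu, abs_of_nonneg hz0']; exact hku)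
    convert this using 1
    apply ext_coords b
    intro i
    rw [inner_add_right, inner_smul_right]
    by_cases hi : i = iU hn
    · rw [hi, ← hu, huu, hpu]; ring
    · rw [hbu i hi, hpi i hi]; ring
  apply hred
  rcases eq_or_lt_of_le hz0' with hz | hz
  · -- degenerate case
    obtain ⟨t, ht⟩ := exists_coords b fun i => if i = iU hn then α + β * y0 else ⟪b i, k⟫
    have htT : t ∈ (T : Set (E n)) := by
      rw [hT, mem_Wd]
      refine ⟨fun i hi => ?_, ?_⟩
      · rw [ht, if_neg hi]; exact hk i hi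
      · rw [ht, ht, if_pos rfl, if_neg hvu]
        exact ⟨le_rfl, by linarith⟩
    have : projH u t ∈ projH u '' (S T : Set (E n)) := by
      rw [hS.proj]; exact mem_image_of_mem _ htT
    obtain ⟨c, hc, hct⟩ := this
    have := fill (S T).convex (hS.symm T) hc (t := 0) (by rw [abs_zero]; exact abs_nonneg _)
    convert this using 1
    apply ext_coords b
    intro i
    rw [inner_add_right, inner_smul_right]
    by_cases hi : i = iU hn
    · rw [hi, ← hu, huu, hpu]; linarith
    · rw [hbu i hi, hpi i hi, mul_zero, add_zero, ← inner_projH_of_ne hi c, ← hu, hct, hu,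
        inner_projH_of_ne hi, ht, if_neg hi]
  · by_contra hpS
    obtain ⟨r, hr, hrS⟩ := Metric.isOpen_iff.1 (S T).isClosed.isOpen_compl p hpS
    set δ := r / (n + 1) with hδ
    have hn1 : (0 : ℝ) < n + 1 := by positivity
    have hδ0 : 0 < δ := div_pos hr hn1
    have hδn : n * δ < r := by
      rw [hδ, ← mul_div_assoc, div_lt_iff₀ hn1]
      nlinarith
    set ht := max (z0 - δ) 0 with hht
    have hht0 : 0 ≤ ht := le_max_right _ _
    have hhtz : ht < z0 := max_lt (by linarith) hz
    have hhtd : |ht - z0| ≤ δ := by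
      rw [abs_le]
      constructor
      · linarith [le_max_left (z0 - δ) 0]
      · linarith
    let loc : Fin n → ℝ := fun i => if (i : ℕ) < m then max 0 (⟪b i, k⟫ - δ) else
      if (i : ℕ) = m + 1 then y0 else 0
    let hic : Fin n → ℝ := fun i => if (i : ℕ) < m then min 1 (⟪b i, k⟫ + δ) else
      if (i : ℕ) = m + 1 then y0 else 0
    have hkm : ∀ i : Fin n, (i : ℕ) < m → ⟪b i, k⟫ ∈ Icc (0 : ℝ) 1 := by
      intro i hi
      have : i ≠ iU hn := by
        intro h
        rw [h] at hi
        simp [iU] at hi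
      have h2 := hk i this
      rwa [hiO, if_pos hi] at h2
    have hkbig : ∀ i : Fin n, ¬ (i : ℕ) < m → (i : ℕ) ≠ m + 1 → i ≠ iU hn → ⟪b i, k⟫ = 0 := by
      intro i hi1 hi2 hi3
      have h2 := hk i hi3
      rw [hiO, if_neg hi1, if_neg hi2] at h2
      exact le_antisymm h2.2 h2.1
    have hkV : ∀ i : Fin n, (i : ℕ) = m + 1 → ⟪b i, k⟫ = y0 := by
      intro i hi
      have : i = iV hn := Fin.ext hi
      rw [this]
    have hkloc : ∀ i, i ≠ iU hn → ⟪b i, k⟫ ∈ Icc (loc i) (hic i) := by
      intro i hi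
      simp only [loc, hic]
      by_cases c1 : (i : ℕ) < m
      · rw [if_pos c1, if_pos c1]
        have := hkm i c1
        exact ⟨max_le this.1 (by linarith), le_min this.2 (by linarith)⟩
      · rw [if_neg c1, if_neg c1]
        by_cases c2 : (i : ℕ) = m + 1
        · rw [if_pos c2, hkV i c2]
          exact ⟨le_rfl, le_rfl⟩
        · rw [if_neg c2, hkbig i c1 c2 hi]
          exact ⟨le_rfl, le_rfl⟩
    have hnear : ∀ i, i ≠ iU hn → ∀ a ∈ Icc (loc i) (hic i), |a - ⟪b i, k⟫| ≤ δ := by
      intro i hi a ha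
      simp only [loc, hic] at ha
      by_cases c1 : (i : ℕ) < m
      · rw [if_pos c1, if_pos c1] at ha
        rw [abs_le]
        constructor
        · linarith [ha.1, le_max_right 0 (⟪b i, k⟫ - δ)]
        · linarith [ha.2, min_le_right 1 (⟪b i, k⟫ + δ)]
      · rw [if_neg c1, if_neg c1] at ha
        by_cases c2 : (i : ℕ) = m + 1
        · rw [if_pos c2] at ha
          rw [hkV i c2, le_antisymm ha.2 ha.1, sub_self, abs_zero]
          exact hδ0.le
        · rw [if_neg c2] at ha
          rw [hkbig i c1 c2 hi, le_antisymm ha.2 ha.1, sub_self, abs_zero]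
          exact hδ0.le
    -- the small vertical box
    let lo1 : Fin n → ℝ := fun i => if i = iU hn then α + β * y0 else loc i
    let hi1 : Fin n → ℝ := fun i => if i = iU hn then α' + β' * y0 else hic i
    let lo2 : Fin n → ℝ := fun i => if i = iU hn then -ht else loc i
    let hi2 : Fin n → ℝ := fun i => if i = iU hn then ht else hic i
    obtain ⟨x0, hx0⟩ := exists_coords b fun i => if i = iU hn then α + β * y0 else ⟪b i, k⟫
    have hx0R : x0 ∈ bbox b lo1 hi1 := by
      intro i
      simp only [lo1, hi1]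
      by_cases hi : i = iU hn
      · rw [if_pos hi, if_pos hi, hx0, if_pos hi]
        exact ⟨le_rfl, by linarith⟩
      · rw [if_neg hi, if_neg hi, hx0, if_neg hi]
        exact hkloc i hi
    let R : ConvexBody (E n) :=
      { carrier := bbox b lo1 hi1
        convex' := bbox_convex b lo1 hi1
        isCompact' := bbox_isCompact b lo1 hi1
        nonempty' := ⟨x0, hx0R⟩ }
    have hRT : (R : Set (E n)) ⊆ T := by
      intro x hx
      have hx' : ∀ i, i ≠ iU hn → ⟪b i, x⟫ ∈ Icc (loc i) (hic i) := by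
        intro i hi
        have := hx i
        simp only [lo1, hi1, if_neg hi] at this
        exact this
      have hxV : ⟪b (iV hn), x⟫ = y0 := by
        have := hx' _ hvu
        have c1 : ¬ ((iV hn : Fin n) : ℕ) < m := by simp [iV]
        have c2 : ((iV hn : Fin n) : ℕ) = m + 1 := rfl
        simp only [loc, hic, if_neg c1, if_pos c2] at this
        exact le_antisymm this.2 this.1
      rw [hT, mem_Wd]
      refine ⟨fun i hi => ?_, ?_⟩
      · have := hx' i hi
        by_cases c1 : (i : ℕ) < m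
        · simp only [loc, hic, if_pos c1] at this
          rw [hiO, if_pos c1]
          exact ⟨(le_max_left _ _).trans this.1, this.2.trans (min_le_left _ _)⟩
        · by_cases c2 : (i : ℕ) = m + 1
          · have e : i = iV hn := Fin.ext c2
            rw [e, hxV]
            exact hk _ hvu
          · simp only [loc, hic, if_neg c1, if_neg c2] at this
            rw [hiO, if_neg c1, if_neg c2]
            exact this
      · have := hx (iU hn)
        simp only [lo1, hi1, if_pos] at this
        rw [hxV]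
        exact this
    have hSR : (S R : Set (E n)) ⊆ bbox b lo2 hi2 := by
      intro x hx
      have hxi : ∀ i, i ≠ iU hn → ⟪b i, x⟫ ∈ Icc (loc i) (hic i) := by
        have : projH u x ∈ projH u '' (R : Set (E n)) := by
          rw [← hS.proj]; exact mem_image_of_mem _ hx
        obtain ⟨y, hy, hyx⟩ := this
        intro i hi
        rw [← inner_projH_of_ne hi x, ← hu, ← hyx, hu, inner_projH_of_ne hi]
        have := hy i
        simp only [lo1, hi1, if_neg hi] at this
        exact this
      have hxu : |⟪u, x⟫| ≤ ht := by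
        by_contra hlt
        rw [not_le] at hlt
        have hxT := hS.mono R T hRT hx
        have hx2 := fill (S T).convex (hS.symm T) hxT (t := ht) (by
          rw [abs_of_nonneg hht0]; exact hlt.le)
        refine hrS ?_ hx2
        rw [Metric.mem_ball, dist_eq_norm]
        refine (norm_le_sum b _).trans_lt ?_
        refine lt_of_le_of_lt ?_ hδn
        have : ∀ i ∈ (Finset.univ : Finset (Fin n)),
            |⟪b i, x + (ht - ⟪u, x⟫) • u - p⟫| ≤ δ := by
          intro i _
          rw [inner_sub_right, inner_add_right, inner_smul_right]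
          by_cases hi : i = iU hn
          · rw [hi, ← hu, huu, hpu]
            have e : ⟪u, x⟫ + (ht - ⟪u, x⟫) * 1 - z0 = ht - z0 := by ring
            rw [e]
            exact hhtd
          · rw [hbu i hi, hpi i hi, mul_zero, add_zero]
            exact hnear i hi _ (hxi i hi)
        refine (Finset.sum_le_card_nsmul _ _ δ this).trans ?_
        rw [Finset.card_univ, Fintype.card_fin, nsmul_eq_mul]
      intro i
      simp only [lo2, hi2]
      by_cases hi : i = iU hn
      · rw [if_pos hi, if_pos hi, hi, ← hu]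
        exact abs_le.1 hxu
      · rw [if_neg hi, if_neg hi]
        exact hxi i hi
    have hI := hS.pres R
    have hI2 := Iv_mono h1 hSR
    rw [hI] at hI2
    have hcong : ∀ i : Fin n, m + 1 ≤ (i : ℕ) → i ≠ iU hn ∧ loc i = hic i := by
      intro i hi
      have h3 : i ≠ iU hn := by
        intro h
        rw [h] at hi
        simp [iU] at hi
      refine ⟨h3, ?_⟩
      simp only [loc, hic, if_neg (show ¬ (i : ℕ) < m by omega)]
    have hv1 : Iv h1 (R : Set (E n)) = kap h1 b *
        ∏ i : Fin (m + 1), ENNReal.ofReal (hi1 (Fin.castLE h1 i) - lo1 (Fin.castLE h1 i)) :=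
      Iv_bbox h1 b lo1 hi1 fun i hi => by
        simp only [lo1, hi1, if_neg (hcong i hi).1]
        exact (hcong i hi).2
    have hv2 : Iv h1 (bbox b lo2 hi2) = kap h1 b *
        ∏ i : Fin (m + 1), ENNReal.ofReal (hi2 (Fin.castLE h1 i) - lo2 (Fin.castLE h1 i)) :=
      Iv_bbox h1 b lo2 hi2 fun i hi => by
        simp only [lo2, hi2, if_neg (hcong i hi).1]
        exact (hcong i hi).2
    rw [hv1, hv2, ENNReal.mul_le_mul_iff_right (kap_pos h1 b).ne' (kap_ne_top h1 b),
      Fin.prod_univ_castSucc, Fin.prod_univ_castSucc] at hI2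
    have hlast : Fin.castLE h1 (Fin.last m) = iU hn := rfl
    have hne : ∀ i : Fin m, Fin.castLE h1 i.castSucc ≠ iU hn := by
      intro i h
      have := congrArg Fin.val h
      simp [iU] at this
      omega
    have hlt : ∀ i : Fin m, ((Fin.castLE h1 i.castSucc : Fin n) : ℕ) < m := by
      intro i
      simp
    simp only [lo1, hi1, lo2, hi2, if_neg (hne _), hlast, if_pos] at hI2
    rw [ENNReal.mul_le_mul_iff_right, ENNReal.ofReal_le_ofReal_iff (by linarith)] at hI2
    · have : ht - -ht < α' + β' * y0 - (α + β * y0) := by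
        have : α' + β' * y0 - (α + β * y0) = 2 * z0 := by rw [hz0]; ring
        rw [this]; linarith
      linarith
    · rw [Finset.prod_ne_zero_iff]
      intro i _
      simp only [loc, hic, if_pos (hlt i)]
      rw [Ne, ENNReal.ofReal_eq_zero, not_le, sub_pos]
      have := hkm _ (hlt i)
      refine max_lt (lt_min one_pos (by linarith [this.1])) (lt_min (by linarith [this.2]) (by linarith))
    · exact ENNReal.prod_ne_top fun i _ => ENNReal.ofReal_ne_top

end

end Pool.Agent.MP_36ea0a_gt
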