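import Mathlib

/-!
# Monotonic symmetrizations preserving an intrinsic volume: definitions

The intrinsic volumes of convex bodies in `ℝⁿ` are defined by Kubota's formula: up to the usual
normalising constant, `V_j(K)` is the average, over the rotation invariant probability measure,
of the `j`-dimensional volumes of the orthogonal projections of `K` to the `j`-dimensional linear
subspaces of `ℝⁿ`.
-/

namespace Pool.Agent.MP_36ea0a_gt

open MeasureTheory Set
open scoped ENNReal RealInnerProductSpace

/-! ## Intrinsic volumes -/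

/-- The Euclidean space `ℝⁿ`. -/
abbrev E (n : ℕ) : Type := EuclideanSpace ℝ (Fin n)

/-- The orthogonal group `O(n)`, as a topological group of matrices. -/
abbrev OG (n : ℕ) : Type := Matrix.orthogonalGroup (Fin n) ℝ

variable {n j : ℕ}

instance : CompactSpace (OG n) := by
  refine isCompact_iff_compactSpace.1 ?_
  have hsub : ((Matrix.orthogonalGroup (Fin n) ℝ : Submonoid _) : Set (Matrix (Fin n) (Fin n) ℝ)) ⊆
      {M | ∀ i k, M i k ∈ Set.Icc (-1 : ℝ) 1} := by
    intro M hM i k
    have h1 : (M * star M) i i = 1 := by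
      rw [(Matrix.mem_unitaryGroup_iff (A := M)).1 hM, Matrix.one_apply_eq]
    have h2 : ∑ l, M i l * M i l = 1 := by
      rw [← h1, Matrix.mul_apply]
      exact Finset.sum_congr rfl fun l _ => by simp [Matrix.star_apply]
    have h3 : M i k * M i k ≤ 1 := by
      rw [← h2]
      exact Finset.single_le_sum (f := fun l => M i l * M i l)
        (fun l _ => mul_self_nonneg _) (Finset.mem_univ k)
    exact ⟨by nlinarith, by nlinarith⟩
  have hc : IsCompact {M : Matrix (Fin n) (Fin n) ℝ | ∀ i k, M i k ∈ Set.Icc (-1 : ℝ) 1} := by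
    have h : {M : Matrix (Fin n) (Fin n) ℝ | ∀ i k, M i k ∈ Set.Icc (-1 : ℝ) 1} =
        Set.pi univ (fun _ : Fin n => Set.pi univ fun _ : Fin n => Set.Icc (-1 : ℝ) 1) := by
      apply Set.ext
      intro M
      constructor
      · intro hM i _ k _
        exact hM i k
      · intro hM i k
        exact hM i (mem_univ _) k (mem_univ _)
    rw [h]
    exact isCompact_univ_pi fun _ => isCompact_univ_pi fun _ => isCompact_Icc
  have hcl : IsClosed ((Matrix.orthogonalGroup (Fin n) ℝ : Submonoid _) :
      Set (Matrix (Fin n) (Fin n) ℝ)) := by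
    have : ((Matrix.orthogonalGroup (Fin n) ℝ : Submonoid _) : Set (Matrix (Fin n) (Fin n) ℝ)) =
        {M | M * star M = 1} := by
      ext M
      exact Matrix.mem_unitaryGroup_iff
    rw [this]
    exact isClosed_eq (continuous_id.mul continuous_star) continuous_const
  exact hc.of_isClosed_subset hcl hsub

instance : MeasurableSpace (OG n) := borel _

instance : BorelSpace (OG n) := ⟨rfl⟩

/-- The invariant (Haar) probability measure on `O(n)`. -/
noncomputable def haarOG (n : ℕ) : Measure (OG n) := Measure.haarMeasure ⊤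

/-- The image of the `i`-th standard basis vector under `g ∈ O(n)`. -/
noncomputable def frame (g : OG n) (i : Fin n) : E n :=
  WithLp.toLp 2 fun k => (g : Matrix (Fin n) (Fin n) ℝ) k i

/-- The orthogonal projection of `x` to the `j`-dimensional linear subspace of `ℝⁿ` with the
orthonormal basis `g e₁, …, g e_j`, written in the coordinates given by this basis. -/
noncomputable def coords (h : j ≤ n) (g : OG n) (x : E n) : E j :=
  WithLp.toLp 2 fun i => ⟪frame g (Fin.castLE h i), x⟫

/-- The volume of the unit ball of `ℝᵐ`. -/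
noncomputable def kappa (m : ℕ) : ℝ≥0∞ := volume (Metric.ball (0 : E m) 1)

/-- The `j`-th intrinsic volume `V_j(K)` of `K ⊆ ℝⁿ` (for `j ≤ n`), by Kubota's formula. Here
`volume` is the Lebesgue measure on `ℝʲ`. -/
noncomputable def intrinsicVolume (h : j ≤ n) (K : Set (E n)) : ℝ≥0∞ :=
  (n.choose j : ℝ≥0∞) * kappa n / (kappa j * kappa (n - j)) *
    ∫⁻ g, volume (coords h g '' K) ∂(haarOG n)

/-! ## Symmetrizations

Throughout, `u` is a unit vector and `H` is the hyperplane of all `x` with `⟪u, x⟫ = 0`. -/

/-- `𝒦ⁿ`: all nonempty compact convex subsets of `ℝⁿ`. -/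
def allBodies (n : ℕ) : Set (ConvexBody (E n)) := Set.univ

/-- `𝒦ⁿₙ`: the convex bodies with nonempty interior. -/
def fullBodies (n : ℕ) : Set (ConvexBody (E n)) := {K | (interior (K : Set (E n))).Nonempty}

/-- The reflection in the hyperplane `H` with unit normal `u`. -/
noncomputable def refl (u x : E n) : E n := x - (2 * ⟪u, x⟫) • u

/-- The orthogonal projection to the hyperplane `H` with unit normal `u`. -/
noncomputable def projH (u x : E n) : E n := x - ⟪u, x⟫ • u

/-- `K` is `H`-symmetric. -/
def HSymmetric (u : E n) (K : Set (E n)) : Prop := refl u '' K = K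

variable {B : Set (ConvexBody (E n))}

/-- The map `S : ℬ → ℬ` is monotonic. -/
def Monotonic (S : B → B) : Prop :=
  ∀ K L : B, (K.1 : Set (E n)) ⊆ L.1 → ((S K).1 : Set (E n)) ⊆ (S L).1

/-- The map `S : ℬ → ℬ` is `V_j`-preserving. -/
def Preserving (h : j ≤ n) (S : B → B) : Prop :=
  ∀ K : B, intrinsicVolume h ((S K).1 : Set (E n)) = intrinsicVolume h (K.1 : Set (E n))

/-- The map `S : ℬ → ℬ` is projection invariant: `(S K)|H = K|H`. -/
def ProjectionInvariant (u : E n) (S : B → B) : Prop :=
  ∀ K : B, projH u '' ((S K).1 : Set (E n)) = projH u '' (K.1 : Set (E n))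

/-- `C` is an `H`-symmetric spherical cylinder `D + [-t, t] u`, where `D` is a closed
`(n-1)`-dimensional ball in `H` (with centre `c ∈ H` and radius `r > 0`) and `t ≥ 0`. -/
def IsSphericalCylinder (u : E n) (C : Set (E n)) : Prop :=
  ∃ c : E n, ⟪u, c⟫ = 0 ∧ ∃ r : ℝ, 0 < r ∧ ∃ t : ℝ, 0 ≤ t ∧
    C = {x | ∃ y : E n, ⟪u, y⟫ = 0 ∧ dist y c ≤ r ∧ ∃ s : ℝ, |s| ≤ t ∧ x = y + s • u}

/-- The map `S : ℬ → ℬ` is invariant on `H`-symmetric spherical cylinders. -/
def CylinderInvariant (u : E n) (S : B → B) : Prop :=
  ∀ K : B, IsSphericalCylinder u (K.1 : Set (E n)) → S K = K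

end Pool.Agent.MP_36ea0a_gt
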