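import Pool.Agent.MP_36ea0a_gt.Main

/-!
# The contradiction, continued
-/

namespace Pool.Agent.MP_36ea0a_gt

open MeasureTheory Set Filter Topology
open scoped ENNReal RealInnerProductSpace

variable {n j m : ℕ}

variable (hm : 1 ≤ m) (hn : m + 2 ≤ n) (b : OB n) (h1 : m + 1 ≤ n)

theorem norm_dir_le (h : j ≤ n) (u : E n) (g : OG n) : ‖dir h u g‖ ≤ 1 := by
  by_cases hg : coordsL h g u = 0
  · rw [dir, hg, smul_zero, norm_zero]; exact zero_le_one
  · exact (norm_dir hg).le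

theorem norm_mixg_le {u : E n} (hu : ‖u‖ = 1) (g : OG n) (k : E n) :
    ‖mixg h1 u g k‖ ≤ 3 * ‖k‖ := by
  rw [mixg, mix_apply]
  have e1 := norm_coordsL_le h1 g k
  have e2 := norm_dir_le h1 u g
  have e3 : |⟪u, k⟫| ≤ ‖k‖ := (abs_real_inner_le_norm _ _).trans (by rw [hu, one_mul])
  have e4 : |⟪dir h1 u g, coordsL h1 g k⟫| ≤ ‖k‖ := by
    refine (abs_real_inner_le_norm _ _).trans ?_
    calc ‖dir h1 u g‖ * ‖coordsL h1 g k‖ ≤ 1 * ‖k‖ :=
          mul_le_mul e2 e1 (norm_nonneg _) zero_le_one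
      _ = ‖k‖ := one_mul _
  calc ‖coordsL h1 g k + (⟪u, k⟫ - ⟪dir h1 u g, coordsL h1 g k⟫) • dir h1 u g‖
      ≤ ‖coordsL h1 g k‖ + ‖(⟪u, k⟫ - ⟪dir h1 u g, coordsL h1 g k⟫) • dir h1 u g‖ :=
        norm_add_le _ _
    _ ≤ ‖k‖ + (‖k‖ + ‖k‖) * 1 := by
        rw [norm_smul, Real.norm_eq_abs]
        refine add_le_add e1 (mul_le_mul ?_ e2 (norm_nonneg _) (by positivity))
        exact (abs_sub _ _).trans (add_le_add e3 e4)
    _ = 3 * ‖k‖ := by ring

/-- The vertical box. -/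
noncomputable def lo0 (hn : m + 2 ≤ n) : Fin n → ℝ := fun i => if i = iU hn then -(1 / 3) else 0

/-- The vertical box. -/
noncomputable def hi0 (hn : m + 2 ≤ n) : Fin n → ℝ :=
  fun i => if i = iU hn then 1 / 3 else if (i : ℕ) < m then 1 else 0

theorem Iv_box0 : Iv h1 (bbox b (lo0 hn) (hi0 hn)) = kap h1 b * ENNReal.ofReal (2 / 3) := by
  rw [Iv_bbox h1 b (lo0 hn) (hi0 hn), Fin.prod_univ_castSucc]
  · have hlast : Fin.castLE h1 (Fin.last m) = iU hn := rfl
    have hne : ∀ i : Fin m, Fin.castLE h1 i.castSucc ≠ iU hn := by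
      intro i h
      have := congrArg Fin.val h
      simp [iU] at this
      omega
    have hlt : ∀ i : Fin m, ((Fin.castLE h1 i.castSucc : Fin n) : ℕ) < m := by
      intro i
      simp
    simp only [lo0, hi0, if_neg (hne _), if_pos (hlt _), hlast, if_pos, sub_zero,
      ENNReal.ofReal_one, Finset.prod_const_one, one_mul]
    congr 2
    norm_num
  · intro i hi'
    have h3 : i ≠ iU hn := by
      intro h
      rw [h] at hi'
      simp [iU] at hi'
    simp only [lo0, hi0, if_neg h3, if_neg (show ¬ (i : ℕ) < m by omega)]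

theorem Pv_box0_le : Pv h1 (b (iU hn)) (bbox b (lo0 hn) (hi0 hn)) ≤
    kap h1 b * ENNReal.ofReal (2 / 3) := by
  rw [← Iv_box0 hn b h1]
  have := le_Iv_stretch h1 (b.norm_eq_one (iU hn)) (bbox_isCompact b (lo0 hn) (hi0 hn))
    (bbox_convex b _ _) (Λ := 1) zero_le_one
  rw [ENNReal.ofReal_one, one_mul] at this
  refine this.trans (le_of_eq ?_)
  congr 1
  ext k
  simp only [mem_image, stretch_one, exists_eq_right]

/-- The box over the base. -/
noncomputable def Bx (hn : m + 2 ≤ n) (b : OB n) (ε : ℝ) : Set (E n) :=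
  Wd hn b ε (-(1 / 3)) 0 (1 / 3) 0

theorem exists_Pv_Bx_lt : ∃ ε : ℝ, 0 < ε ∧ Pv h1 (b (iU hn)) (Bx hn b ε) < kap h1 b := by
  have hvu := iV_ne_iU hn
  have hu := b.norm_eq_one (iU hn)
  obtain ⟨R0, hR0⟩ := exists_norm_le (bbox_isCompact b (lo0 hn) (hi0 hn))
  have hlt : kap h1 b * ENNReal.ofReal (2 / 3) < kap h1 b := by
    conv_rhs => rw [← mul_one (kap h1 b)]
    refine ENNReal.mul_lt_mul_right (kap_pos h1 b).ne' (kap_ne_top h1 b) ?_
    rw [← ENNReal.ofReal_one, ENNReal.ofReal_lt_ofReal_iff one_pos]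
    norm_num
  obtain ⟨r, hr, hrk⟩ := ENNReal.lt_iff_exists_add_pos_lt.1 hlt
  set M : ℝ := |2 * (3 * R0)| ^ m + 1 with hM
  have hM0 : 0 < M := by positivity
  have hr' : (0 : ℝ) < r := by exact_mod_cast hr
  set ε : ℝ := r / (3 * M) with hε
  have hε0 : 0 < ε := by positivity
  refine ⟨ε, hε0, lt_of_le_of_lt ?_ hrk⟩
  have hpt : ∀ g, pv h1 (b (iU hn)) (Bx hn b ε) g ≤
      pv h1 (b (iU hn)) (bbox b (lo0 hn) (hi0 hn)) g + r := by
    intro g
    have hth := thicken (mixg h1 (b (iU hn)) g (ε • b (iV hn)))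
      (A := mixg h1 (b (iU hn)) g '' bbox b (lo0 hn) (hi0 hn))
      (B := mixg h1 (b (iU hn)) g '' Bx hn b ε)
      ((bbox_isCompact b (lo0 hn) (hi0 hn)).image (mixg h1 (b (iU hn)) g).continuous)
      ((bbox_convex b _ _).linear_image (mixg h1 (b (iU hn)) g : E n →ₗ[ℝ] E (m + 1)))
      ((Wd_isCompact hn b).image (mixg h1 (b (iU hn)) g).continuous).measurableSet
      (by
        rintro _ ⟨k, hk, rfl⟩
        refine ⟨mixg h1 (b (iU hn)) g (k - ⟪b (iV hn), k⟫ • b (iV hn)),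
          mem_image_of_mem _ ?_, ⟪b (iV hn), k⟫ / ε, ?_, ?_⟩
        · intro i
          rw [inner_sub_right, inner_smul_right, b.inner_eq_ite]
          by_cases c : i = iV hn
          · rw [c, if_pos rfl, mul_one, sub_self]
            simp only [lo0, hi0, if_neg hvu]
            rw [if_neg (by simp [iV])]
            exact ⟨le_rfl, le_rfl⟩
          · rw [if_neg c, mul_zero, sub_zero]
            by_cases c2 : i = iU hn
            · simp only [lo0, hi0, if_pos c2]
              rw [c2]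
              have := hk.2
              simpa using this
            · have h2 := hk.1 i c2
              simp only [lo0, hi0, if_neg c2]
              have c' : (i : ℕ) ≠ m + 1 := fun h => c (Fin.ext h)
              rw [hiO] at h2
              by_cases c1 : (i : ℕ) < m
              · rw [if_pos c1] at h2 ⊢
                exact h2
              · rw [if_neg c1, if_neg c'] at h2
                rw [if_neg c1]
                exact h2
        · have := hk.1 _ hvu
          rw [hiO_iV] at this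
          exact ⟨div_nonneg this.1 hε0.le, (div_le_one hε0).2 this.2⟩
        · rw [← map_smul (mixg h1 (b (iU hn)) g), ← map_add (mixg h1 (b (iU hn)) g), smul_smul,
            div_mul_cancel₀ _ hε0.ne', sub_add_cancel])
      (R := 3 * R0)
      (by
        rintro _ ⟨k, hk, rfl⟩
        exact (norm_mixg_le h1 hu g k).trans (by linarith [hR0 k hk]))
    have hg1 : ENNReal.ofReal ‖coordsL h1 g (b (iU hn))‖ ≤ 1 := by
      rw [← ENNReal.ofReal_one]
      exact ENNReal.ofReal_le_ofReal ((norm_coordsL_le h1 g _).trans hu.le)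
    have hextra : ENNReal.ofReal ‖mixg h1 (b (iU hn)) g (ε • b (iV hn))‖ *
        ENNReal.ofReal (2 * (3 * R0)) ^ m ≤ r := by
      have e1 : ENNReal.ofReal ‖mixg h1 (b (iU hn)) g (ε • b (iV hn))‖ ≤
          ENNReal.ofReal (3 * ε) := by
        refine ENNReal.ofReal_le_ofReal ((norm_mixg_le h1 hu g _).trans ?_)
        rw [norm_smul, b.norm_eq_one, mul_one, Real.norm_eq_abs, abs_of_pos hε0]
      have e2 : ENNReal.ofReal (2 * (3 * R0)) ^ m ≤ ENNReal.ofReal M := by
        refine (pow_le_pow_left' (ENNReal.ofReal_le_ofReal (le_abs_self (2 * (3 * R0)))) m).trans ?_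
        rw [← ENNReal.ofReal_pow (abs_nonneg _)]
        exact ENNReal.ofReal_le_ofReal (by rw [hM]; linarith)
      refine (mul_le_mul' e1 e2).trans ?_
      rw [← ENNReal.ofReal_mul (by positivity), ← ENNReal.ofReal_coe_nnreal]
      refine ENNReal.ofReal_le_ofReal (le_of_eq ?_)
      rw [hε]
      field_simp
    calc pv h1 (b (iU hn)) (Bx hn b ε) g ≤ ENNReal.ofReal ‖coordsL h1 g (b (iU hn))‖ *
          (volume (mixg h1 (b (iU hn)) g '' bbox b (lo0 hn) (hi0 hn)) + r) :=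
          mul_le_mul_right (hth.trans (by gcongr)) _
      _ = pv h1 (b (iU hn)) (bbox b (lo0 hn) (hi0 hn)) g +
            ENNReal.ofReal ‖coordsL h1 g (b (iU hn))‖ * r := by rw [mul_add]; rfl
      _ ≤ pv h1 (b (iU hn)) (bbox b (lo0 hn) (hi0 hn)) g + r := by
          gcongr
          exact mul_le_of_le_one_left zero_le hg1
  refine (lintegral_mono hpt).trans ?_
  rw [lintegral_add_right _ measurable_const, lintegral_const, measure_univ, mul_one]
  gcongr
  exact Pv_box0_le hn b h1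

variable {S : ConvexBody (E n) → ConvexBody (E n)}

/-- Uniform upper bound for the symmetrizations of the tilted flat bodies. -/
theorem flat_bound (hS : Core h1 (b (iU hn)) S) (hm : 1 ≤ m) {ε : ℝ} (hε : 0 < ε)
    (Q : ℕ → ConvexBody (E n))
    (hQ : ∀ Λ : ℕ, (Q Λ : Set (E n)) = Wd hn b ε 0 (Λ / ε) 0 (Λ / ε)) :
    ∀ᶠ Λ : ℕ in atTop, (S (Q Λ) : Set (E n)) ⊆ stretch (b (iU hn)) Λ '' Bx hn b ε := by
  have hvu := iV_ne_iU hn
  set u := b (iU hn) with hu
  have hun : ‖u‖ = 1 := b.norm_eq_one _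
  -- the two bodies
  have hΛ0 : ∀ Λ : ℕ, (0 : ℝ) ≤ Λ := fun Λ => Nat.cast_nonneg _
  let T1 : ℕ → ConvexBody (E n) := fun Λ =>
    WdBody hn b (ε := ε) (α := 0) (β := 0) (α' := 0) (β' := Λ / ε) hε.le le_rfl le_rfl
  let T2 : ℕ → ConvexBody (E n) := fun Λ =>
    WdBody hn b (ε := ε) (α := 0) (β := Λ / ε) (α' := Λ) (β' := 0) hε.le le_rfl (hΛ0 Λ)
  have hT1 : ∀ Λ, (T1 Λ : Set (E n)) = Wd hn b ε 0 0 0 (Λ / ε) := fun Λ => rfl
  have hT2 : ∀ Λ, (T2 Λ : Set (E n)) = Wd hn b ε 0 (Λ / ε) Λ 0 := fun Λ => rfl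
  have hQT1 : ∀ Λ, (Q Λ : Set (E n)) ⊆ T1 Λ := by
    intro Λ k hk
    rw [hQ, mem_Wd] at hk
    rw [hT1, mem_Wd]
    refine ⟨hk.1, ?_, hk.2.2⟩
    have h2 := hk.1 _ hvu
    have h3 := hk.2.1
    have : 0 ≤ Λ / ε * ⟪b (iV hn), k⟫ := mul_nonneg (div_nonneg (hΛ0 Λ) hε.le) h2.1
    linarith
  have hQT2 : ∀ Λ, (Q Λ : Set (E n)) ⊆ T2 Λ := by
    intro Λ k hk
    rw [hQ, mem_Wd] at hk
    rw [hT2, mem_Wd]
    refine ⟨hk.1, hk.2.1, ?_⟩
    have h2 := hk.1 _ hvu
    rw [hiO_iV] at h2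
    have h3 := hk.2.2
    have : Λ / ε * ⟪b (iV hn), k⟫ ≤ Λ / ε * ε :=
      mul_le_mul_of_nonneg_left h2.2 (div_nonneg (hΛ0 Λ) hε.le)
    rw [div_mul_cancel₀ _ hε.ne'] at this
    linarith
  -- for every point there is a good body
  have key : ∀ q : E n, ⟪b (iV hn), q⟫ ∈ Icc 0 ε → ∃ l0 l1 : ℝ, ∃ T : ℕ → ConvexBody (E n),
      Adm ε l0 l1 ∧ (∀ Λ, (Q Λ : Set (E n)) ⊆ T Λ) ∧
      (∀ᶠ Λ : ℕ in atTop, Iv h1 (T Λ : Set (E n)) ≤ Iv h1 (stretch u Λ '' Ty hn b ε l0 l1)) ∧
      (∀ᶠ Λ : ℕ in atTop, stretch u Λ '' Sy hn b ε l0 l1 ⊆ (S (T Λ) : Set (E n))) ∧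
      l0 + l1 * ⟪b (iV hn), q⟫ ≤ 1 / 2 ∧ l0 + l1 * (ε / 2) = 1 / 2 := by
    intro q hq
    rcases le_total ⟪b (iV hn), q⟫ (ε / 2) with hle | hle
    · refine ⟨0, 1 / ε, T1, adm1 hε, hQT1, ?_, ?_, ?_, ?_⟩
      · filter_upwards [eventually_gt_atTop 0] with Λ hΛ
        have hΛ' : (0 : ℝ) < Λ := by exact_mod_cast hΛ
        rw [Ty, hu, stretch_Wd hn b hΛ', hT1]
        simp only [mul_zero, mul_one_div]
        exact le_rfl
      · refine Eventually.of_forall fun Λ => ?_
        rintro _ ⟨k, hk, rfl⟩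
        rw [mem_Sy] at hk
        refine steiner hn b h1 hS (T1 Λ) (hT1 Λ) (fun i hi => ?_) ?_
        · rw [hu, inner_stretch_of_ne hi]; exact hk.1 i hi
        · rw [hu, inner_stretch_self, inner_stretch_of_ne hvu, abs_mul, abs_of_nonneg (hΛ0 Λ)]
          refine (mul_le_mul_of_nonneg_left hk.2 (hΛ0 Λ)).trans (le_of_eq ?_)
          ring
      · rw [zero_add, one_div_mul_eq_div, div_le_iff₀ hε]; linarith
      · field_simp; ring
    · refine ⟨1, -(1 / ε), T2, adm2 hε, hQT2, ?_, ?_, ?_, ?_⟩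
      · filter_upwards [eventually_gt_atTop 0] with Λ hΛ
        have hΛ' : (0 : ℝ) < Λ := by exact_mod_cast hΛ
        rw [hT2]
        exact Iv_T2 hn b h1 hε hΛ'
      · refine Eventually.of_forall fun Λ => ?_
        rintro _ ⟨k, hk, rfl⟩
        rw [mem_Sy] at hk
        refine steiner hn b h1 hS (T2 Λ) (hT2 Λ) (fun i hi => ?_) ?_
        · rw [hu, inner_stretch_of_ne hi]; exact hk.1 i hi
        · rw [hu, inner_stretch_self, inner_stretch_of_ne hvu, abs_mul, abs_of_nonneg (hΛ0 Λ)]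
          refine (mul_le_mul_of_nonneg_left hk.2 (hΛ0 Λ)).trans (le_of_eq ?_)
          ring
      · have : 1 / 2 ≤ ⟪b (iV hn), q⟫ / ε := by rw [le_div_iff₀ hε]; linarith
        have e : 1 + -(1 / ε) * ⟪b (iV hn), q⟫ = 1 - ⟪b (iV hn), q⟫ / ε := by ring
        rw [e]; linarith
      · field_simp; ring
  -- compactness
  let lo : Fin n → ℝ := fun i => if i = iU hn then 1 / 3 else 0
  let hi : Fin n → ℝ := fun i => if i = iU hn then 1 / 3 else hiO n m ε i
  have hKc : ∀ᶠ Λ : ℕ in atTop, ∀ q ∈ bbox b lo hi, stretch u Λ q ∉ (S (Q Λ) : Set (E n)) := by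
    refine (bbox_isCompact b lo hi).induction_on
      (p := fun s => ∀ᶠ Λ : ℕ in atTop, ∀ q ∈ s, stretch u Λ q ∉ (S (Q Λ) : Set (E n)))
      (by simp) (fun s t hst ht => ht.mono fun Λ h q hq => h q (hst hq))
      (fun s t hs ht => ?_) (fun q hq => ?_)
    · filter_upwards [hs, ht] with Λ h2 h3 q hq
      exact hq.elim (h2 q) (h3 q)
    · have hqV : ⟪b (iV hn), q⟫ ∈ Icc 0 ε := by
        have := hq (iV hn)
        simp only [lo, hi, if_neg hvu] at this
        rwa [hiO_iV] at this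
      have hqU : ∀ q ∈ bbox b lo hi, ⟪b (iU hn), q⟫ = 1 / 3 := by
        intro q hq
        have := hq (iU hn)
        simp only [lo, hi, if_pos] at this
        exact le_antisymm this.2 this.1
      have hqbig : ∀ q ∈ bbox b lo hi, ∀ i : Fin n, m + 1 < (i : ℕ) → ⟪b i, q⟫ = 0 := by
        intro q hq i hi'
        have h3 : i ≠ iU hn := by
          intro h
          rw [h] at hi'
          simp [iU] at hi'
        have := hq i
        simp only [lo, hi, if_neg h3] at this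
        rw [hiO, if_neg (by omega), if_neg (by omega)] at this
        exact le_antisymm this.2 this.1
      obtain ⟨l0, l1, T, hl, hQT, hTI, hTS, hlq, hlm⟩ := key q hqV
      obtain ⟨k₀, hk₀⟩ := exists_center hn b ε
      set p : E n := (9 / 10 : ℝ) • q + (1 / 10 : ℝ) • k₀ with hp
      have hpp : (l0 + l1 * ⟪b (iV hn), p⟫) / 2 < ⟪b (iU hn), p⟫ := by
        rw [hp, inner_add_right, inner_add_right, inner_smul_right, inner_smul_right,
          inner_smul_right, inner_smul_right, hk₀.2.1, hk₀.2.2.1, hqU q hq]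
        nlinarith
      have hev := eventually_notMem hm hn b h1 hS hε hl T hTI hTS hpp
      set ρ : ℝ := min (1 / 72) (ε / 36) with hρ
      have hρ0 : 0 < ρ := lt_min (by norm_num) (by linarith)
      have hUo : IsOpen {q' : E n | ∀ i, |⟪b i, q - q'⟫| < ρ} := by
        have : {q' : E n | ∀ i, |⟪b i, q - q'⟫| < ρ} = ⋂ i, {q' | |⟪b i, q - q'⟫| < ρ} := by
          ext; simp
        rw [this]
        exact isOpen_iInter_of_finite fun i =>
          isOpen_lt ((continuous_const.inner (continuous_const.sub continuous_id)).abs)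
            continuous_const
      refine ⟨bbox b lo hi ∩ {q' : E n | ∀ i, |⟪b i, q - q'⟫| < ρ}, ?_, ?_⟩
      · exact inter_mem self_mem_nhdsWithin
          (mem_nhdsWithin_of_mem_nhds (hUo.mem_nhds (by simpa using fun _ => hρ0)))
      · filter_upwards [hev, hTS] with Λ e1 e2 q' hq' hmem
        apply e1
        have hw : k₀ + (9 : ℝ) • (q - q') ∈ Sy hn b ε l0 l1 := by
          refine center_mem hn b hε hl hk₀ (fun i => ?_) ?_ (fun i hi' => ?_)
          · rw [inner_smul_right, abs_mul, abs_of_pos (by norm_num : (0 : ℝ) < 9)]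
            have := (hq'.2 i).trans_le (min_le_left _ _)
            linarith
          · rw [inner_smul_right, abs_mul, abs_of_pos (by norm_num : (0 : ℝ) < 9)]
            have := (hq'.2 (iV hn)).trans_le (min_le_right _ _)
            linarith
          · rw [inner_smul_right, inner_sub_right, hqbig q hq i hi', hqbig q' hq'.1 i hi']
            simp
        have h4 : stretch u Λ (k₀ + (9 : ℝ) • (q - q')) ∈ (S (T Λ) : Set (E n)) :=
          e2 (mem_image_of_mem _ hw)
        have h5 : stretch u Λ q' ∈ (S (T Λ) : Set (E n)) := hS.mono _ _ (hQT Λ) hmem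
        have h6 := (S (T Λ)).convex h5 h4 (a := 9 / 10) (b := 1 / 10) (by norm_num) (by norm_num)
          (by norm_num)
        rw [← map_smul, ← map_smul, ← map_add] at h6
        convert h6 using 2
        rw [hp, smul_add, smul_smul, smul_sub]
        norm_num
        module
  filter_upwards [hKc, eventually_gt_atTop 0] with Λ hΛ hΛpos k hk
  have hΛ' : (0 : ℝ) < Λ := by exact_mod_cast hΛpos
  have hki : ∀ i, i ≠ iU hn → ⟪b i, k⟫ ∈ Icc 0 (hiO n m ε i) := by
    have : projH u k ∈ projH u '' (Q Λ : Set (E n)) := by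
      rw [← hS.proj]; exact mem_image_of_mem _ hk
    obtain ⟨y, hy, hyk⟩ := this
    intro i hi
    rw [← inner_projH_of_ne hi k, ← hu, ← hyk, hu, inner_projH_of_ne hi]
    rw [hQ, mem_Wd] at hy
    exact hy.1 i hi
  have hkU : |⟪u, k⟫| ≤ Λ * (1 / 3) := by
    by_contra hlt
    rw [not_le] at hlt
    have h2 := fill (S (Q Λ)).convex (hS.symm (Q Λ)) hk (t := Λ * (1 / 3)) (by
      rw [abs_of_nonneg (by positivity)]; exact hlt.le)
    set k' := k + (Λ * (1 / 3) - ⟪u, k⟫) • u with hk'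
    have hk'U : ⟪u, k'⟫ = Λ * (1 / 3) := by
      rw [hk', inner_add_right, inner_smul_right, real_inner_self_eq_norm_sq, hun]
      ring
    have hk'i : ∀ i, i ≠ iU hn → ⟪b i, k'⟫ = ⟪b i, k⟫ := by
      intro i hi
      rw [hk', inner_add_right, inner_smul_right, hu, b.inner_eq_ite, if_neg hi]
      ring
    apply hΛ (stretch u (Λ : ℝ)⁻¹ k')
    · intro i
      simp only [lo, hi]
      by_cases c : i = iU hn
      · rw [if_pos c, if_pos c, c, hu, inner_stretch_self, ← hu, hk'U]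
        have : (Λ : ℝ)⁻¹ * (Λ * (1 / 3)) = 1 / 3 := by
          rw [← mul_assoc, inv_mul_cancel₀ hΛ'.ne', one_mul]
        rw [this]
        exact ⟨le_rfl, le_rfl⟩
      · rw [if_neg c, if_neg c, hu, inner_stretch_of_ne c, hk'i i c]
        exact hki i c
    · rw [hu, stretch_stretch, mul_inv_cancel₀ hΛ'.ne', stretch_one]
      exact h2
  rw [Bx, hu, stretch_Wd hn b hΛ', mem_Wd]
  refine ⟨hki, ?_⟩
  have := abs_le.1 hkU
  rw [← hu]
  constructor
  · linarith [this.1]
  · linarith [this.2]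

include hm in
/-- There is no symmetrization of all convex bodies as in the problem. -/
theorem core_false (hS : Core h1 (b (iU hn)) S) : False := by
  obtain ⟨ε, hε, hεk⟩ := exists_Pv_Bx_lt hn b h1
  have hΛ0 : ∀ Λ : ℕ, (0 : ℝ) ≤ Λ := fun Λ => Nat.cast_nonneg _
  let Q : ℕ → ConvexBody (E n) := fun Λ =>
    WdBody hn b (ε := ε) (α := 0) (β := Λ / ε) (α' := 0) (β' := Λ / ε) hε.le le_rfl le_rfl
  have hQ : ∀ Λ : ℕ, (Q Λ : Set (E n)) = Wd hn b ε 0 (Λ / ε) 0 (Λ / ε) := fun Λ => rfl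
  have hBc : IsCompact (Bx hn b ε) := Wd_isCompact hn b
  obtain ⟨R, hR⟩ := exists_norm_le hBc
  obtain ⟨Λ, e1, e2, e3⟩ := ((flat_bound hn b h1 hS hm hε Q hQ).and
    ((gap hεk (Err_ne_top m R)).and (eventually_gt_atTop 0))).exists
  have hΛ' : (0 : ℝ) < Λ := by exact_mod_cast e3
  have h2 : ENNReal.ofReal Λ * kap h1 b ≤
      ENNReal.ofReal Λ * Pv h1 (b (iU hn)) (Bx hn b ε) + Err m R :=
    calc ENNReal.ofReal Λ * kap h1 b ≤ Iv h1 (Q Λ : Set (E n)) := kap_le_Iv_Q hn b h1 hε hΛ'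
      _ = Iv h1 (S (Q Λ) : Set (E n)) := (hS.pres (Q Λ)).symm
      _ ≤ Iv h1 (stretch (b (iU hn)) Λ '' Bx hn b ε) := Iv_mono h1 e1
      _ ≤ _ := Iv_stretch_le h1 (b.norm_eq_one _) hBc (Wd_convex hn b) hR (hΛ0 Λ)
  exact absurd e2 (not_lt.2 h2)

end Pool.Agent.MP_36ea0a_gt
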