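import Pool.Agent.MP_36ea0a_gt.Shadow

/-!
# Averages over the orthogonal group
-/

namespace Pool.Agent.MP_36ea0a_gt

open MeasureTheory Set
open scoped ENNReal RealInnerProductSpace

variable {n j m : ℕ}

instance : Measure.IsHaarMeasure (haarOG n) := by unfold haarOG; infer_instance

instance : IsProbabilityMeasure (haarOG n) :=
  ⟨by
    have := Measure.haarMeasure_self (G := OG n) (K₀ := ⊤)
    simpa [haarOG] using this⟩

/-! ### Frames -/

theorem frame_inner (g : OG n) (i k : Fin n) : ⟪frame g i, frame g k⟫ = if i = k then 1 else 0 := by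
  have h1 : (star (g : Matrix (Fin n) (Fin n) ℝ) * (g : Matrix (Fin n) (Fin n) ℝ)) k i =
      if i = k then 1 else 0 := by
    rw [(Matrix.mem_unitaryGroup_iff').1 g.2, Matrix.one_apply]
    simp only [eq_comm]
  rw [← h1, Matrix.mul_apply, PiLp.inner_apply]
  refine Finset.sum_congr rfl fun l _ => ?_
  simp [frame, Matrix.star_apply]

theorem frame_orthonormal (g : OG n) : Orthonormal ℝ (frame g) := by
  rw [orthonormal_iff_ite]
  intro i k
  exact frame_inner g i k

/-- The map `coords h g` as a continuous linear map. -/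
noncomputable def coordsL (h : j ≤ n) (g : OG n) : E n →L[ℝ] E j :=
  ((EuclideanSpace.equiv (Fin j) ℝ).symm : (Fin j → ℝ) →L[ℝ] E j).comp
    (ContinuousLinearMap.pi fun i => innerSL ℝ (frame g (Fin.castLE h i)))

theorem coordsL_apply (h : j ≤ n) (g : OG n) (x : E n) : coordsL h g x = coords h g x := rfl

theorem coe_coordsL (h : j ≤ n) (g : OG n) : ⇑(coordsL h g) = coords h g := rfl

theorem coordsL_apply' (h : j ≤ n) (g : OG n) (x : E n) (i : Fin j) :
    coordsL h g x i = ⟪frame g (Fin.castLE h i), x⟫ := rfl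

theorem norm_coordsL_le (h : j ≤ n) (g : OG n) (x : E n) : ‖coordsL h g x‖ ≤ ‖x‖ := by
  have ho : Orthonormal ℝ fun i : Fin j => frame g (Fin.castLE h i) :=
    (frame_orthonormal g).comp _ (Fin.castLE_injective h)
  have := ho.sum_inner_products_le x (s := Finset.univ)
  rw [← abs_of_nonneg (norm_nonneg (coordsL h g x)), ← abs_of_nonneg (norm_nonneg x),
    ← sq_le_sq, EuclideanSpace.norm_sq_eq]
  exact this

theorem continuous_frame (i : Fin n) : Continuous fun g : OG n => frame g i := by
  refine (PiLp.continuous_toLp 2 _).comp (continuous_pi fun k => ?_)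
  exact (continuous_apply_apply k i).comp continuous_subtype_val

theorem continuous_coordsL (h : j ≤ n) : Continuous fun g : OG n => coordsL h g := by
  rw [continuous_clm_apply]
  intro x
  refine (PiLp.continuous_toLp 2 _).comp (continuous_pi fun i => ?_)
  exact (continuous_frame _).inner continuous_const

/-! ### Isometries -/

/-- The matrix of a linear isometry. -/
noncomputable def ofIso (φ : E n ≃ₗᵢ[ℝ] E n) : OG n :=
  ⟨Matrix.of fun k i => φ (EuclideanSpace.single i 1) k, by
    rw [Matrix.mem_unitaryGroup_iff']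
    ext i k
    rw [Matrix.mul_apply, Matrix.one_apply]
    have h1 : ⟪φ (EuclideanSpace.single i 1), φ (EuclideanSpace.single k 1)⟫ =
        if i = k then (1 : ℝ) else 0 := by
      rw [φ.inner_map_map, EuclideanSpace.inner_single_left]
      simp
    rw [← h1, PiLp.inner_apply]
    refine Finset.sum_congr rfl fun l _ => ?_
    simp [Matrix.star_apply, mul_comm]⟩

theorem frame_ofIso_mul (φ : E n ≃ₗᵢ[ℝ] E n) (g : OG n) (i : Fin n) :
    frame (ofIso φ * g) i = φ (frame g i) := by
  have h1 : frame g i = ∑ l, (g : Matrix (Fin n) (Fin n) ℝ) l i • EuclideanSpace.single l (1 : ℝ) := by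
    ext k
    simp [frame, Finset.sum_apply, Pi.single_apply]
  rw [h1, map_sum]
  ext k
  simp only [map_smul]
  change (∑ l, (ofIso φ : Matrix (Fin n) (Fin n) ℝ) k l * (g : Matrix (Fin n) (Fin n) ℝ) l i) = _
  rw [WithLp.ofLp_sum, Finset.sum_apply]
  refine Finset.sum_congr rfl fun l _ => ?_
  simp [ofIso, mul_comm]

theorem coordsL_iso (h : j ≤ n) (φ : E n ≃ₗᵢ[ℝ] E n) (g : OG n) (x : E n) :
    coordsL h g (φ x) = coordsL h (ofIso φ.symm * g) x := by
  ext i
  rw [coordsL_apply', coordsL_apply', frame_ofIso_mul,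
    ← φ.inner_map_map (φ.symm (frame g (Fin.castLE h i))), φ.apply_symm_apply]

/-! ### The average -/

/-- Unnormalised intrinsic volume. -/
noncomputable def Iv (h : j ≤ n) (K : Set (E n)) : ℝ≥0∞ :=
  ∫⁻ g, volume (coordsL h g '' K) ∂(haarOG n)

theorem Iv_mono (h : j ≤ n) {K L : Set (E n)} (hKL : K ⊆ L) : Iv h K ≤ Iv h L :=
  lintegral_mono fun _ => measure_mono (image_mono hKL)

theorem Iv_iso (h : j ≤ n) (φ : E n ≃ₗᵢ[ℝ] E n) (K : Set (E n)) : Iv h (φ '' K) = Iv h K := by
  have h1 : ∀ g, coordsL h g '' (φ '' K) = coordsL h (ofIso φ.symm * g) '' K := by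
    intro g
    rw [image_image]
    simp only [coordsL_iso]
  unfold Iv
  simp only [h1]
  exact lintegral_mul_left_eq_self (fun g => volume (coordsL h g '' K)) (ofIso φ.symm)

theorem Iv_translate (h : j ≤ n) (a : E n) (K : Set (E n)) :
    Iv h ((fun x => a + x) '' K) = Iv h K := by
  unfold Iv
  refine lintegral_congr fun g => ?_
  have : coordsL h g '' ((fun x => a + x) '' K) =
      (fun y => coordsL h g a + y) '' (coordsL h g '' K) := by
    simp only [image_image, map_add]
  rw [this, image_add_left, measure_preimage_add]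

theorem measurable_volume_image {K : Set (E n)} (hK : IsCompact K) :
    Measurable fun A : E n →L[ℝ] E j => volume (A '' K) := by
  have hcl : IsClosed {p : (E n →L[ℝ] E j) × E j | ∃ k ∈ K, p.1 k = p.2} := by
    have := isCompact_iff_compactSpace.1 hK
    have h1 : IsClosed {q : ((E n →L[ℝ] E j) × E j) × K | q.1.1 q.2 = q.1.2} :=
      isClosed_eq ((continuous_fst.comp continuous_fst).clm_apply
        (continuous_subtype_val.comp continuous_snd)) (continuous_snd.comp continuous_fst)
    have h2 := isClosedMap_fst_of_compactSpace (X := (E n →L[ℝ] E j) × E j) (Y := K) _ h1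
    convert h2 using 1
    ext p
    constructor
    · rintro ⟨k, hk, hp⟩
      exact ⟨(p, ⟨k, hk⟩), hp, rfl⟩
    · rintro ⟨⟨p', k⟩, hp, rfl⟩
      exact ⟨k, k.2, hp⟩
  have := measurable_measure_prodMk_left (ν := (volume : Measure (E j))) hcl.measurableSet
  exact this

theorem measurable_coordsL (h : j ≤ n) {K : Set (E n)} (hK : IsCompact K) :
    Measurable fun g : OG n => volume (coordsL h g '' K) :=
  (measurable_volume_image hK).comp (continuous_coordsL h).measurable

theorem volume_coordsL_le (h : j ≤ n) (g : OG n) {K : Set (E n)} {R : ℝ} (hR : ∀ k ∈ K, ‖k‖ ≤ R) :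
    volume (coordsL h g '' K) ≤ volume (Metric.closedBall (0 : E j) R) := by
  refine measure_mono ?_
  rintro _ ⟨k, hk, rfl⟩
  rw [mem_closedBall_zero_iff]
  exact (norm_coordsL_le h g k).trans (hR k hk)

theorem exists_norm_le {K : Set (E n)} (hK : IsCompact K) : ∃ R : ℝ, ∀ k ∈ K, ‖k‖ ≤ R :=
  hK.isBounded.exists_norm_le

theorem Iv_lt_top (h : j ≤ n) {K : Set (E n)} (hK : IsCompact K) : Iv h K < ⊤ := by
  obtain ⟨R, hR⟩ := exists_norm_le hK
  refine (lintegral_mono fun g => volume_coordsL_le h g hR).trans_lt ?_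
  rw [lintegral_const, measure_univ, mul_one]
  exact measure_closedBall_lt_top

/-- Continuity from above. -/
theorem Iv_iInter (h : j ≤ n) {C : ℕ → Set (E n)} (hC : ∀ i, IsCompact (C i)) (ha : Antitone C) :
    Iv h (⋂ i, C i) = ⨅ i, Iv h (C i) := by
  unfold Iv
  have h1 : ∀ g, volume (coordsL h g '' ⋂ i, C i) = ⨅ i, volume (coordsL h g '' C i) := by
    intro g
    have h2 : coordsL h g '' ⋂ i, C i = ⋂ i, coordsL h g '' C i := by
      refine Subset.antisymm (image_iInter_subset _ _) fun y hy => ?_
      have h3 : (⋂ i, (C i ∩ (coordsL h g) ⁻¹' {y})).Nonempty := by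
        refine IsCompact.nonempty_iInter_of_directed_nonempty_isCompact_isClosed _
          (fun i k => ⟨max i k, inter_subset_inter_left _ (ha (le_max_left _ _)),
            inter_subset_inter_left _ (ha (le_max_right _ _))⟩) (fun i => ?_) (fun i => ?_)
          (fun i => ?_)
        · obtain ⟨k, hk, hky⟩ := mem_iInter.1 hy i
          exact ⟨k, hk, hky⟩
        · exact (hC i).inter_right (isClosed_singleton.preimage (coordsL h g).continuous)
        · exact (hC i).isClosed.inter (isClosed_singleton.preimage (coordsL h g).continuous)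
      obtain ⟨k, hk⟩ := h3
      rw [mem_iInter] at hk
      exact ⟨k, mem_iInter.2 fun i => (hk i).1, (hk 0).2⟩
    rw [h2]
    refine Antitone.measure_iInter (fun i k hik => image_mono (ha hik))
      (fun i => ((hC i).image (coordsL h g).continuous).measurableSet.nullMeasurableSet)
      ⟨0, ((hC 0).image (coordsL h g).continuous).measure_lt_top.ne⟩
  simp only [h1]
  exact lintegral_iInf (fun i => measurable_coordsL h (hC i))
    (fun i k hik g => measure_mono (image_mono (ha hik))) (Iv_lt_top h (hC 0)).ne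

end Pool.Agent.MP_36ea0a_gt
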