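import Pool.Agent.MP_36ea0a_gt.Core

/-!
# The contradiction
-/

namespace Pool.Agent.MP_36ea0a_gt

open MeasureTheory Set Filter Topology
open scoped ENNReal RealInnerProductSpace

variable {n j m : ℕ}

/-- Admissible height functions. -/
structure Adm (ε l0 l1 : ℝ) : Prop where
  nonneg : ∀ y ∈ Icc (0 : ℝ) ε, 0 ≤ l0 + l1 * y
  quarter : ∀ y ∈ Icc (ε / 4) (3 * ε / 4), 1 / 4 ≤ l0 + l1 * y

variable (hm : 1 ≤ m) (hn : m + 2 ≤ n) (b : OB n) (h1 : m + 1 ≤ n)

/-- The body above the hyperplane. -/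
noncomputable def Ty (ε l0 l1 : ℝ) : Set (E n) := Wd hn b ε 0 0 l0 l1

/-- Its Steiner symmetral. -/
noncomputable def Sy (ε l0 l1 : ℝ) : Set (E n) := Wd hn b ε (-(l0 / 2)) (-(l1 / 2)) (l0 / 2) (l1 / 2)

theorem mem_Sy {ε l0 l1 : ℝ} {k : E n} : k ∈ Sy hn b ε l0 l1 ↔
    (∀ i, i ≠ iU hn → ⟪b i, k⟫ ∈ Icc 0 (hiO n m ε i)) ∧
    |⟪b (iU hn), k⟫| ≤ (l0 + l1 * ⟪b (iV hn), k⟫) / 2 := by
  rw [Sy, mem_Wd, abs_le, mem_Icc]
  constructor
  · rintro ⟨h1, h2, h3⟩
    exact ⟨h1, by linarith, by linarith⟩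
  · rintro ⟨h1, h2, h3⟩
    exact ⟨h1, by linarith, by linarith⟩

theorem Pv_Ty_le {ε l0 l1 : ℝ} :
    Pv h1 (b (iU hn)) (Ty hn b ε l0 l1) ≤ Pv h1 (b (iU hn)) (Sy hn b ε l0 l1) := by
  have hvu := iV_ne_iU hn
  refine Pv_compare h1 (b.norm_eq_one _) (Wd_isCompact hn b) (Wd_convex hn b)
    (Wd_isCompact hn b) (fun k hk => ?_) (fun k hk => ?_)
  · have := hk.2.1
    simpa using this
  · obtain ⟨h2, h3, h4⟩ := hk
    simp only [zero_mul, add_zero] at h3
    constructor
    · rw [mem_Sy]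
      refine ⟨fun i hi => ?_, ?_⟩
      · rw [inner_stretch_of_ne hi]; exact h2 i hi
      · rw [inner_stretch_self, inner_stretch_of_ne hvu, abs_le]
        constructor <;> linarith
    · rw [mem_Sy]
      refine ⟨fun i hi => ?_, ?_⟩
      · rw [inner_stretch_of_ne hi]; exact h2 i hi
      · rw [inner_stretch_self, inner_stretch_of_ne hvu, abs_le]
        constructor <;> linarith

include hm in
theorem inner_swap_emb {r : ℝ} (hr : 0 < r) (s : E (m + 1)) (hs : ∀ i, |s i| < r) (i : Fin n) :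
    |⟪b i, emb h1 (swapB hn b) s⟫| < r ∧
      (m + 1 < (i : ℕ) → ⟪b i, emb h1 (swapB hn b) s⟫ = 0) := by
  by_cases c0 : i = i0 hn
  · have : ⟪b i, emb h1 (swapB hn b) s⟫ = 0 := by
      rw [c0, ← swapB_iV hn b]
      exact inner_emb_of_ge h1 _ s (iV hn) (by simp [iV])
    rw [this, abs_zero]
    exact ⟨hr, fun _ => rfl⟩
  by_cases c1 : i = iV hn
  · have : ⟪b i, emb h1 (swapB hn b) s⟫ = s 0 := by
      rw [c1, ← swapB_i0 hn b]
      exact inner_emb h1 _ s 0
    rw [this]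
    refine ⟨hs 0, fun h => ?_⟩
    rw [c1] at h
    simp [iV] at h
  rw [← swapB_of_ne hn b c0 c1]
  by_cases c2 : (i : ℕ) < m + 1
  · have e : i = Fin.castLE h1 ⟨i, c2⟩ := rfl
    rw [e, inner_emb]
    refine ⟨hs _, fun h => ?_⟩
    exfalso
    have : ((Fin.castLE h1 ⟨i, c2⟩ : Fin n) : ℕ) = i := rfl
    omega
  · rw [inner_emb_of_ge h1 _ s i (not_lt.1 c2), abs_zero]
    exact ⟨hr, fun _ => rfl⟩

/-- A point in the interior of the wedges, relative to the base. -/
theorem exists_center (ε : ℝ) : ∃ k₀ : E n, (∀ i : Fin n, (i : ℕ) < m → ⟪b i, k₀⟫ = 1 / 2) ∧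
    ⟪b (iV hn), k₀⟫ = ε / 2 ∧ ⟪b (iU hn), k₀⟫ = 0 ∧
    ∀ i : Fin n, m + 1 < (i : ℕ) → ⟪b i, k₀⟫ = 0 := by
  obtain ⟨k, hk⟩ := exists_coords b fun i => if (i : ℕ) < m then 1 / 2 else
    if (i : ℕ) = m + 1 then ε / 2 else 0
  refine ⟨k, fun i hi => ?_, ?_, ?_, fun i hi => ?_⟩
  · rw [hk, if_pos hi]
  · rw [hk, if_neg (by simp [iV]), if_pos (by simp [iV])]
  · rw [hk, if_neg (by simp [iU]), if_neg (by simp [iU])]
  · rw [hk, if_neg (by omega), if_neg (by omega)]

/-- Small changes of the centre stay in the symmetral. -/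
theorem center_mem {ε l0 l1 : ℝ} (hε : 0 < ε) (hl : Adm ε l0 l1) {k₀ : E n}
    (hk0 : (∀ i : Fin n, (i : ℕ) < m → ⟪b i, k₀⟫ = 1 / 2) ∧
      ⟪b (iV hn), k₀⟫ = ε / 2 ∧ ⟪b (iU hn), k₀⟫ = 0 ∧
      ∀ i : Fin n, m + 1 < (i : ℕ) → ⟪b i, k₀⟫ = 0) {w : E n}
    (hw1 : ∀ i : Fin n, |⟪b i, w⟫| ≤ 1 / 8) (hw2 : |⟪b (iV hn), w⟫| ≤ ε / 4)
    (hw3 : ∀ i : Fin n, m + 1 < (i : ℕ) → ⟪b i, w⟫ = 0) : k₀ + w ∈ Sy hn b ε l0 l1 := by
  obtain ⟨q1, q2, q3, q4⟩ := hk0
  rw [mem_Sy]
  have hV := abs_le.1 hw2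
  refine ⟨fun i hi => ?_, ?_⟩
  · rw [inner_add_right]
    by_cases c1 : (i : ℕ) < m
    · rw [q1 i c1, hiO, if_pos c1]
      have := abs_le.1 (hw1 i)
      exact ⟨by linarith [this.1], by linarith [this.2]⟩
    · by_cases c2 : (i : ℕ) = m + 1
      · have e : i = iV hn := Fin.ext c2
        rw [e, q2, hiO_iV]
        exact ⟨by linarith [hV.1], by linarith [hV.2]⟩
      · have c3 : m + 1 < (i : ℕ) := by
          have : (i : ℕ) ≠ m := fun h => hi (Fin.ext h)
          omega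
        rw [q4 i c3, hw3 i c3, hiO, if_neg c1, if_neg c2]
        simp
  · rw [inner_add_right, inner_add_right, q2, q3, zero_add]
    have h2 := hl.quarter (ε / 2 + ⟪b (iV hn), w⟫) ⟨by linarith [hV.1], by linarith [hV.2]⟩
    exact (hw1 _).trans (by linarith)

include hm in
theorem no_excess {ε l0 l1 : ℝ} (hε : 0 < ε) (hl : Adm ε l0 l1) {p : E n}
    (hp : (l0 + l1 * ⟪b (iV hn), p⟫) / 2 < ⟪b (iU hn), p⟫) :
    ∀ᶠ Λ : ℕ in atTop, Iv h1 (stretch (b (iU hn)) Λ '' Ty hn b ε l0 l1) <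
      Iv h1 (stretch (b (iU hn)) Λ '' closure (convexHull ℝ (insert p (Sy hn b ε l0 l1)))) := by
  set L := closure (convexHull ℝ (insert p (Sy hn b ε l0 l1))) with hL
  have hu := b.norm_eq_one (iU hn)
  have hSc : IsCompact (Sy hn b ε l0 l1) := Wd_isCompact hn b
  have hTc : IsCompact (Ty hn b ε l0 l1) := Wd_isCompact hn b
  have hsub : insert p (Sy hn b ε l0 l1) ⊆ L := (subset_convexHull ℝ _).trans subset_closure
  have hLc : IsCompact L := by
    refine Metric.isCompact_of_isClosed_isBounded isClosed_closure ?_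
    refine Bornology.IsBounded.closure ?_
    rw [isBounded_convexHull]
    exact hSc.isBounded.insert p
  have hLv : Convex ℝ L := (convex_convexHull ℝ _).closure
  obtain ⟨k₀, hk₀⟩ := exists_center hn b ε
  have hPS : Pv h1 (b (iU hn)) (Sy hn b ε l0 l1) ≠ ⊤ := by
    have := le_Iv_stretch h1 hu hSc (Wd_convex hn b) (Λ := 1) zero_le_one
    rw [ENNReal.ofReal_one, one_mul] at this
    exact (this.trans_lt (Iv_lt_top h1 (hSc.image (stretch _ 1).continuous))).ne
  have hr : 0 < min (1 / 8 : ℝ) (ε / 4) := lt_min (by norm_num) (by linarith)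
  have hstrict : Pv h1 (b (iU hn)) (Sy hn b ε l0 l1) < Pv h1 (b (iU hn)) L := by
    refine Pv_strict hm hn b h1 hLc hLv ((subset_insert _ _).trans hsub)
      (hsub (mem_insert _ _)) (by linarith) (k₀ := k₀) (r := min (1 / 8) (ε / 4)) hr
      (fun s hs => ?_) hPS
    refine center_mem hn b hε hl hk₀ (fun i => ?_) ?_ (fun i hi => ?_)
    · exact ((inner_swap_emb hm hn b h1 hr s hs i).1.trans_le (min_le_left _ _)).le
    · exact ((inner_swap_emb hm hn b h1 hr s hs _).1.trans_le (min_le_right _ _)).le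
    · exact (inner_swap_emb hm hn b h1 hr s hs i).2 hi
  obtain ⟨R, hR⟩ := exists_norm_le hTc
  filter_upwards [gap hstrict (Err_ne_top m R)] with Λ hΛ
  calc Iv h1 (stretch (b (iU hn)) Λ '' Ty hn b ε l0 l1)
      ≤ ENNReal.ofReal Λ * Pv h1 (b (iU hn)) (Ty hn b ε l0 l1) + Err m R :=
        Iv_stretch_le h1 hu hTc (Wd_convex hn b) hR (Nat.cast_nonneg _)
    _ ≤ ENNReal.ofReal Λ * Pv h1 (b (iU hn)) (Sy hn b ε l0 l1) + Err m R := by
        gcongr
        exact Pv_Ty_le hn b h1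
    _ < ENNReal.ofReal Λ * Pv h1 (b (iU hn)) L := hΛ
    _ ≤ _ := le_Iv_stretch h1 hu hLc hLv (Nat.cast_nonneg _)

variable {S : ConvexBody (E n) → ConvexBody (E n)}

include hm in
theorem eventually_notMem (hS : Core h1 (b (iU hn)) S) {ε l0 l1 : ℝ} (hε : 0 < ε)
    (hl : Adm ε l0 l1) (T : ℕ → ConvexBody (E n))
    (hT : ∀ᶠ Λ : ℕ in atTop, Iv h1 (T Λ : Set (E n)) ≤
      Iv h1 (stretch (b (iU hn)) Λ '' Ty hn b ε l0 l1))
    (hTS : ∀ᶠ Λ : ℕ in atTop, stretch (b (iU hn)) Λ '' Sy hn b ε l0 l1 ⊆ (S (T Λ) : Set (E n)))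
    {p : E n} (hp : (l0 + l1 * ⟪b (iV hn), p⟫) / 2 < ⟪b (iU hn), p⟫) :
    ∀ᶠ Λ : ℕ in atTop, stretch (b (iU hn)) Λ p ∉ (S (T Λ) : Set (E n)) := by
  filter_upwards [hT, hTS, no_excess hm hn b h1 hε hl hp] with Λ q1 q2 q3 hmem
  refine absurd q3 (not_lt.2 ?_)
  refine (Iv_mono h1 ?_).trans ((hS.pres (T Λ)).le.trans q1)
  rw [image_subset_iff]
  refine closure_minimal (convexHull_min ?_ ?_) ?_
  · rw [insert_subset_iff]
    exact ⟨hmem, image_subset_iff.1 q2⟩
  · exact (S (T Λ)).convex.linear_preimage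
      (stretch (b (iU hn)) (Λ : ℝ) : E n →ₗ[ℝ] E n)
  · exact (S (T Λ)).isClosed.preimage (stretch _ _).continuous

/-! ### The bodies -/

theorem zero_mem_Wd {ε α β α' β' : ℝ} (hε : 0 ≤ ε) (h0 : α ≤ 0) (h0' : 0 ≤ α') :
    (0 : E n) ∈ Wd hn b ε α β α' β' := by
  rw [mem_Wd]
  refine ⟨fun i _ => ?_, ?_⟩
  · rw [inner_zero_right, hiO]
    refine ⟨le_rfl, ?_⟩
    split_ifs
    · exact zero_le_one
    · exact hε
    · exact le_rfl
  · rw [inner_zero_right, inner_zero_right]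
    simpa using ⟨h0, h0'⟩

/-- A wedge as a convex body. -/
noncomputable def WdBody {ε α β α' β' : ℝ} (hε : 0 ≤ ε) (h0 : α ≤ 0) (h0' : 0 ≤ α') :
    ConvexBody (E n) where
  carrier := Wd hn b ε α β α' β'
  convex' := Wd_convex hn b
  isCompact' := Wd_isCompact hn b
  nonempty' := ⟨0, zero_mem_Wd hn b hε h0 h0'⟩

theorem adm1 {ε : ℝ} (hε : 0 < ε) : Adm ε 0 (1 / ε) where
  nonneg y hy := by
    have := hy.1
    positivity
  quarter y hy := by
    have := hy.1
    rw [zero_add, one_div_mul_eq_div, le_div_iff₀ hε]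
    linarith

theorem adm2 {ε : ℝ} (hε : 0 < ε) : Adm ε 1 (-(1 / ε)) where
  nonneg y hy := by
    have : y / ε ≤ 1 := (div_le_one hε).2 hy.2
    have e : 1 + -(1 / ε) * y = 1 - y / ε := by ring
    rw [e]; linarith
  quarter y hy := by
    have : y / ε ≤ 3 / 4 := by rw [div_le_iff₀ hε]; linarith [hy.2]
    have e : 1 + -(1 / ε) * y = 1 - y / ε := by ring
    rw [e]; linarith

theorem reflIso_inner_self {b : OB n} {iu : Fin n} (x : E n) :
    ⟪b iu, reflIso (b iu) x⟫ = -⟪b iu, x⟫ := by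
  rw [reflIso_apply (b.norm_eq_one iu), refl, inner_sub_right, inner_smul_right,
    real_inner_self_eq_norm_sq, b.norm_eq_one]
  ring

theorem reflIso_inner_of_ne {b : OB n} {iu i : Fin n} (h : i ≠ iu) (x : E n) :
    ⟪b i, reflIso (b iu) x⟫ = ⟪b i, x⟫ := by
  rw [reflIso_apply (b.norm_eq_one iu), refl, inner_sub_right, inner_smul_right,
    b.inner_eq_ite, if_neg h]
  ring

/-- Reflected wedges have the same volume. -/
theorem Iv_T2 {ε Λ : ℝ} (hε : 0 < ε) (hΛ : 0 < Λ) :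
    Iv h1 (Wd hn b ε 0 (Λ / ε) Λ 0) ≤
      Iv h1 (stretch (b (iU hn)) Λ '' Ty hn b ε 1 (-(1 / ε))) := by
  have hvu := iV_ne_iU hn
  rw [Ty, stretch_Wd hn b hΛ]
  have hsub : Wd hn b ε 0 (Λ / ε) Λ 0 ⊆ (fun x => Λ • b (iU hn) + x) ''
      (reflIso (b (iU hn)) '' Wd hn b ε (Λ * 0) (Λ * 0) (Λ * 1) (Λ * -(1 / ε))) := by
    intro k hk
    rw [mem_Wd] at hk
    refine ⟨k - Λ • b (iU hn), ⟨reflIso (b (iU hn)) (k - Λ • b (iU hn)), ?_, ?_⟩, ?_⟩
    · rw [mem_Wd]
      refine ⟨fun i hi => ?_, ?_⟩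
      · rw [reflIso_inner_of_ne hi, inner_sub_right, inner_smul_right, b.inner_eq_ite, if_neg hi,
          mul_zero, sub_zero]
        exact hk.1 i hi
      · rw [reflIso_inner_self, reflIso_inner_of_ne hvu, inner_sub_right, inner_sub_right,
          inner_smul_right, inner_smul_right, real_inner_self_eq_norm_sq, b.norm_eq_one,
          b.inner_eq_ite, if_neg hvu]
        have h2 := hk.2
        have e : Λ * -(1 / ε) * (⟪b (iV hn), k⟫ - Λ * 0) = -(Λ / ε * ⟪b (iV hn), k⟫) := by ring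
        rw [mem_Icc, e]
        constructor
        · linarith [h2.2]
        · linarith [h2.1]
    · exact Submodule.reflection_reflection _ _
    · simp
  refine (Iv_mono h1 hsub).trans ?_
  rw [Iv_translate, Iv_iso]

/-- The lower bound for the tilted flat bodies. -/
theorem kap_le_Iv_Q {ε Λ : ℝ} (hε : 0 < ε) (hΛ : 0 < Λ) :
    ENNReal.ofReal Λ * kap h1 b ≤ Iv h1 (Wd hn b ε 0 (Λ / ε) 0 (Λ / ε)) := by
  have hvu := iV_ne_iU hn
  set u := b (iU hn) with hu
  set v := b (iV hn) with hv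
  set a : ℝ := Real.sqrt (ε ^ 2 + Λ ^ 2) with ha
  have ha2 : a ^ 2 = ε ^ 2 + Λ ^ 2 := Real.sq_sqrt (by positivity)
  have ha0 : 0 < a := Real.sqrt_pos.2 (by positivity)
  have haΛ : Λ ≤ a := Real.le_sqrt_of_sq_le (by nlinarith)
  have huu : ⟪u, u⟫ = 1 := by rw [hu, real_inner_self_eq_norm_sq, b.norm_eq_one, one_pow]
  have hvv : ⟪v, v⟫ = 1 := by rw [hv, real_inner_self_eq_norm_sq, b.norm_eq_one, one_pow]
  have hvu0 : ⟪v, u⟫ = 0 := by rw [hu, hv, b.inner_eq_ite, if_neg hvu]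
  have huv0 : ⟪u, v⟫ = 0 := by rw [hu, hv, b.inner_eq_ite, if_neg hvu.symm]
  set u' : E n := (ε / a) • v + (Λ / a) • u with hu'
  have hnu' : ‖u'‖ = ‖u‖ := by
    have h2 : ‖u'‖ ^ 2 = 1 := by
      rw [← real_inner_self_eq_norm_sq, hu', inner_add_left, inner_add_right, inner_add_right]
      simp only [inner_smul_left, inner_smul_right, huu, hvv, hvu0, huv0, conj_trivial]
      field_simp
      linarith
    have h3 : ‖u'‖ = 1 := by
      have : ‖u'‖ ^ 2 = 1 ^ 2 := by rw [h2, one_pow]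
      exact (pow_left_inj₀ (norm_nonneg _) zero_le_one two_ne_zero).1 this
    rw [h3, hu, b.norm_eq_one]
  set φ := (ℝ ∙ (u' - u))ᗮ.reflection with hφ
  have hφu' : φ u' = u := Submodule.reflection_sub hnu'
  have hφu : φ u = u' := by
    rw [← hφu', hφ, Submodule.reflection_reflection]
  let lo : Fin n → ℝ := fun _ => 0
  let hi : Fin n → ℝ := fun i => if i = iU hn then Λ else if (i : ℕ) < m then 1 else 0
  have hsub : φ '' bbox b lo hi ⊆ Wd hn b ε 0 (Λ / ε) 0 (Λ / ε) := by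
    rintro _ ⟨k, hk, rfl⟩
    set z := ⟪u, k⟫ with hz
    have hkV : ⟪v, k⟫ = 0 := by
      have := hk (iV hn)
      simp only [lo, hi, if_neg hvu] at this
      rw [if_neg (by simp [iV])] at this
      exact le_antisymm this.2 this.1
    have hω : φ (k - z • u) = k - z • u := by
      apply Submodule.reflection_mem_subspace_eq_self
      rw [Submodule.mem_orthogonal_singleton_iff_inner_right, inner_sub_left, hu', inner_add_left,
        inner_smul_left, inner_smul_left, inner_sub_right, inner_sub_right, inner_smul_right,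
        inner_smul_right, huu, hvu0, hkV, ← hz]
      simp
    have hφk : φ k = (k - z • u) + z • u' := by
      have : k = (k - z • u) + z • u := by abel
      conv_lhs => rw [this]
      rw [map_add, map_smul, hφu, hω]
    have hzr : z ∈ Icc 0 Λ := by
      have := hk (iU hn)
      simp only [lo, hi, if_pos] at this
      exact this
    have hcV : ⟪v, φ k⟫ = z * (ε / a) := by
      rw [hφk, hu', inner_add_right, inner_sub_right, inner_smul_right, inner_smul_right,
        inner_add_right, inner_smul_right, inner_smul_right, hvv, hvu0, hkV]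
      ring
    have hcU : ⟪u, φ k⟫ = z * (Λ / a) := by
      rw [hφk, hu', inner_add_right, inner_sub_right, inner_smul_right, inner_smul_right,
        inner_add_right, inner_smul_right, inner_smul_right, huu, huv0, ← hz]
      ring
    rw [mem_Wd]
    refine ⟨fun i hi' => ?_, ?_⟩
    · by_cases c : i = iV hn
      · rw [c, ← hv, hcV, hiO_iV]
        constructor
        · exact mul_nonneg hzr.1 (by positivity)
        · have : z / a ≤ 1 := (div_le_one ha0).2 (hzr.2.trans haΛ)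
          calc z * (ε / a) = z / a * ε := by ring
            _ ≤ 1 * ε := mul_le_mul_of_nonneg_right this hε.le
            _ = ε := one_mul _
      · have hiu : ⟪b i, u⟫ = 0 := by rw [hu, b.inner_eq_ite, if_neg hi']
        have hiv : ⟪b i, v⟫ = 0 := by rw [hv, b.inner_eq_ite, if_neg c]
        have : ⟪b i, φ k⟫ = ⟪b i, k⟫ := by
          rw [hφk, hu', inner_add_right, inner_sub_right, inner_smul_right, inner_smul_right,
            inner_add_right, inner_smul_right, inner_smul_right, hiu, hiv]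
          ring
        rw [this]
        have h2 := hk i
        simp only [lo, hi, if_neg hi'] at h2
        have c' : (i : ℕ) ≠ m + 1 := fun h => c (Fin.ext h)
        rw [hiO]
        by_cases c1 : (i : ℕ) < m
        · rw [if_pos c1] at h2 ⊢
          exact h2
        · rw [if_neg c1] at h2 ⊢
          rw [if_neg c']
          exact h2
    · rw [← hu, ← hv, hcU, hcV]
      have e : Λ / ε * (z * (ε / a)) = z * (Λ / a) := by
        field_simp
      rw [zero_add, e]
      exact ⟨le_rfl, le_rfl⟩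
  calc ENNReal.ofReal Λ * kap h1 b = Iv h1 (bbox b lo hi) := by
        rw [Iv_bbox h1 b lo hi, Fin.prod_univ_castSucc]
        · have hlast : Fin.castLE h1 (Fin.last m) = iU hn := rfl
          have hne : ∀ i : Fin m, Fin.castLE h1 i.castSucc ≠ iU hn := by
            intro i h
            have := congrArg Fin.val h
            simp [iU] at this
            omega
          have hlt : ∀ i : Fin m, ((Fin.castLE h1 i.castSucc : Fin n) : ℕ) < m := by
            intro i
            simp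
          simp only [lo, hi, if_neg (hne _), if_pos (hlt _), hlast, if_pos, sub_zero,
            ENNReal.ofReal_one, Finset.prod_const_one, one_mul]
          rw [mul_comm]
        · intro i hi'
          have h3 : i ≠ iU hn := by
            intro h
            rw [h] at hi'
            simp [iU] at hi'
          simp only [lo, hi, if_neg h3, if_neg (show ¬ (i : ℕ) < m by omega)]
    _ = Iv h1 (φ '' bbox b lo hi) := (Iv_iso h1 φ _).symm
    _ ≤ _ := Iv_mono h1 hsub

end Pool.Agent.MP_36ea0a_gt
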