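import Pool.Agent.MP_36ea0a_gt.Final

/-!
# Reduction to projection invariant symmetrizations of all convex bodies
-/

namespace Pool.Agent.MP_36ea0a_gt

open MeasureTheory Set Filter Topology
open scoped ENNReal RealInnerProductSpace

variable {n j m : ℕ}

/-! ### The normalising constant -/

theorem kappa_pos (m : ℕ) : kappa m ≠ 0 := (Metric.measure_ball_pos _ _ one_pos).ne'

theorem kappa_ne_top (m : ℕ) : kappa m ≠ ⊤ := measure_ball_lt_top.ne

theorem intrinsicVolume_eq (h : j ≤ n) (K : Set (E n)) :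
    intrinsicVolume h K = ((n.choose j : ℝ≥0∞) * kappa n / (kappa j * kappa (n - j))) * Iv h K :=
  rfl

theorem Iv_eq_of_intrinsicVolume (h : j ≤ n) {K L : Set (E n)}
    (hKL : intrinsicVolume h K = intrinsicVolume h L) : Iv h K = Iv h L := by
  rw [intrinsicVolume_eq, intrinsicVolume_eq] at hKL
  refine (ENNReal.mul_right_inj ?_ ?_).1 hKL
  · rw [Ne, ENNReal.div_eq_zero_iff, not_or]
    refine ⟨mul_ne_zero ?_ (kappa_pos n), ENNReal.mul_ne_top (kappa_ne_top j) (kappa_ne_top _)⟩
    exact_mod_cast (Nat.choose_pos h).ne'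
  · exact ENNReal.div_ne_top (ENNReal.mul_ne_top (ENNReal.natCast_ne_top _) (kappa_ne_top n))
      (mul_ne_zero (kappa_pos j) (kappa_pos _))

/-! ### Projections -/

/-- The orthogonal projection to the hyperplane as a linear map. -/
noncomputable def projHL (u : E n) : E n →L[ℝ] E n :=
  ContinuousLinearMap.id ℝ (E n) - (innerSL ℝ u).smulRight u

theorem projHL_apply (u x : E n) : projHL u x = projH u x := by
  simp [projHL, projH]

theorem coe_projHL (u : E n) : ⇑(projHL u) = projH u := funext (projHL_apply u)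

theorem inner_projH {u : E n} (hu : ‖u‖ = 1) (x : E n) : ⟪u, projH u x⟫ = 0 := by
  rw [projH, inner_sub_right, inner_smul_right, real_inner_self_eq_norm_sq, hu]
  ring

theorem norm_projH_le {u : E n} (hu : ‖u‖ = 1) (x : E n) : ‖projH u x‖ ≤ ‖x‖ := by
  have h0 : ⟪projH u x, u⟫ = 0 := by rw [real_inner_comm]; exact inner_projH hu x
  have h1 : ‖x‖ ^ 2 = ‖projH u x‖ ^ 2 + ⟪u, x⟫ ^ 2 := by
    have hx : x = projH u x + ⟪u, x⟫ • u := by rw [projH]; abel
    conv_lhs => rw [hx]
    rw [← real_inner_self_eq_norm_sq, inner_add_left, inner_add_right, inner_add_right,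
      inner_smul_left, inner_smul_left, inner_smul_right, inner_smul_right,
      inner_projH hu, h0, real_inner_self_eq_norm_sq, real_inner_self_eq_norm_sq, hu]
    simp
    ring
  refine le_of_sq_le_sq ?_ (norm_nonneg x)
  rw [h1]
  exact le_add_of_nonneg_right (sq_nonneg _)

theorem image_iInter {α : Type*} [TopologicalSpace α] [T2Space α] {f : E n → α}
    (hf : Continuous f) {C : ℕ → Set (E n)} (hC : ∀ i, IsCompact (C i)) (ha : Antitone C) :
    f '' ⋂ i, C i = ⋂ i, f '' C i := by
  refine Subset.antisymm (image_iInter_subset _ _) fun y hy => ?_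
  have h3 : (⋂ i, (C i ∩ f ⁻¹' {y})).Nonempty := by
    refine IsCompact.nonempty_iInter_of_directed_nonempty_isCompact_isClosed _
      (fun i k => ⟨max i k, inter_subset_inter_left _ (ha (le_max_left _ _)),
        inter_subset_inter_left _ (ha (le_max_right _ _))⟩) (fun i => ?_) (fun i => ?_)
      (fun i => ?_)
    · obtain ⟨k, hk, hky⟩ := mem_iInter.1 hy i
      exact ⟨k, hk, hky⟩
    · exact (hC i).inter_right (isClosed_singleton.preimage hf)
    · exact (hC i).isClosed.inter (isClosed_singleton.preimage hf)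
  obtain ⟨k, hk⟩ := h3
  rw [mem_iInter] at hk
  exact ⟨k, mem_iInter.2 fun i => (hk i).1, (hk 0).2⟩

/-! ### Cylinders -/

/-- The cylinder over a ball in the hyperplane. -/
def cyl (u c : E n) (r t : ℝ) : Set (E n) := {x | dist (projH u x) c ≤ r ∧ |⟪u, x⟫| ≤ t}

theorem cyl_eq {u c : E n} (hu : ‖u‖ = 1) (r t : ℝ) :
    cyl u c r t = {x | ∃ y : E n, ⟪u, y⟫ = 0 ∧ dist y c ≤ r ∧ ∃ s : ℝ, |s| ≤ t ∧ x = y + s • u} := by
  ext x
  constructor
  · rintro ⟨h1, h2⟩
    refine ⟨projH u x, inner_projH hu x, h1, ⟪u, x⟫, h2, ?_⟩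
    rw [projH]; abel
  · rintro ⟨y, hy, hyc, s, hs, rfl⟩
    have e1 : ⟪u, y + s • u⟫ = s := by
      rw [inner_add_right, inner_smul_right, hy, real_inner_self_eq_norm_sq, hu]
      ring
    have e2 : projH u (y + s • u) = y := by rw [projH, e1]; abel
    exact ⟨by rw [e2]; exact hyc, by rw [e1]; exact hs⟩

theorem continuous_projH (u : E n) : Continuous (projH u) := by
  rw [← coe_projHL]; exact (projHL u).continuous

theorem cyl_isCompact {u c : E n} (hu : ‖u‖ = 1) (r t : ℝ) : IsCompact (cyl u c r t) := by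
  refine (isCompact_closedBall (0 : E n) (r + ‖c‖ + t)).of_isClosed_subset ?_ ?_
  · have hc : Continuous fun x : E n => |⟪u, x⟫| := (continuous_const.inner continuous_id).abs
    exact (isClosed_le ((continuous_projH u).dist continuous_const) continuous_const).inter
      (isClosed_le hc continuous_const)
  · rintro x ⟨h1, h2⟩
    rw [mem_closedBall_zero_iff]
    have hx : x = projH u x + ⟪u, x⟫ • u := by rw [projH]; abel
    have h3 : ‖projH u x‖ ≤ r + ‖c‖ := by
      have : projH u x = (projH u x - c) + c := by abel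
      rw [this]
      refine (norm_add_le _ _).trans (add_le_add_left ?_ _)
      rw [← dist_eq_norm]; exact h1
    calc ‖x‖ = ‖projH u x + ⟪u, x⟫ • u‖ := by rw [← hx]
      _ ≤ ‖projH u x‖ + ‖⟪u, x⟫ • u‖ := norm_add_le _ _
      _ ≤ (r + ‖c‖) + t := by
        refine add_le_add h3 ?_
        rw [norm_smul, hu, mul_one, Real.norm_eq_abs]
        exact h2

theorem cyl_convex (u c : E n) (r t : ℝ) : Convex ℝ (cyl u c r t) := by
  have : cyl u c r t = (projHL u : E n →ₗ[ℝ] E n) ⁻¹' Metric.closedBall c r ∩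
      (innerSL ℝ u : E n →ₗ[ℝ] ℝ) ⁻¹' Icc (-t) t := by
    ext x
    simp only [cyl, mem_ofPred_eq, mem_inter_iff, mem_preimage, ContinuousLinearMap.coe_coe,
      Metric.mem_closedBall, projHL_apply, innerSL_apply_apply, mem_Icc, abs_le]
  rw [this]
  exact ((convex_closedBall c r).linear_preimage _).inter ((convex_Icc _ _).linear_preimage _)

/-- A point of the hyperplane outside the projection of a convex body can be separated from it by
a ball in the hyperplane. -/
theorem exists_ball {u : E n} (hu : ‖u‖ = 1) (K : ConvexBody (E n)) {x : E n} (hxu : ⟪u, x⟫ = 0)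
    (hx : x ∉ projH u '' (K : Set (E n))) :
    ∃ c : E n, ⟪u, c⟫ = 0 ∧ ∃ r : ℝ, 0 < r ∧ (∀ k ∈ (K : Set (E n)), dist (projH u k) c ≤ r) ∧
      r < dist x c := by
  have hAc : IsCompact (projH u '' (K : Set (E n))) := K.isCompact.image (continuous_projH u)
  have hAv : Convex ℝ (projH u '' (K : Set (E n))) := by
    rw [← coe_projHL]
    exact K.convex.linear_image (projHL u : E n →ₗ[ℝ] E n)
  obtain ⟨f, s, hfs, hsx⟩ := geometric_hahn_banach_closed_point hAv hAc.isClosed hx
  set w0 := (InnerProductSpace.toDual ℝ (E n)).symm f with hw0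
  have hf : ∀ y, ⟪w0, y⟫ = f y := fun y => InnerProductSpace.toDual_symm_apply
  set w := projH u w0 with hw
  have hwy : ∀ y, ⟪u, y⟫ = 0 → ⟪w, y⟫ = f y := by
    intro y hy
    rw [hw, projH, inner_sub_left, inner_smul_left, hy, mul_zero, sub_zero, hf]
  have huw : ⟪u, w⟫ = 0 := inner_projH hu w0
  obtain ⟨M, hM⟩ := exists_norm_le hAc
  have hgap : 0 < f x - s := sub_pos.2 hsx
  set t : ℝ := M ^ 2 / (2 * (f x - s)) + 1 with ht
  have ht0 : 0 < t := by positivity
  have htM : M ^ 2 < 2 * t * (f x - s) := by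
    have : M ^ 2 / (2 * (f x - s)) * (2 * (f x - s)) = M ^ 2 := by field_simp
    rw [ht]
    nlinarith
  set q : ℝ := M ^ 2 + 2 * t * s + t ^ 2 * ‖w‖ ^ 2 with hq
  have hnorm : ∀ y, ⟪u, y⟫ = 0 → dist y (-(t • w)) ^ 2 = ‖y‖ ^ 2 + 2 * t * f y + t ^ 2 * ‖w‖ ^ 2 := by
    intro y hy
    rw [dist_eq_norm, sub_neg_eq_add, @norm_add_sq_real, inner_smul_right, real_inner_comm,
      hwy y hy, norm_smul, Real.norm_eq_abs, abs_of_pos ht0]
    ring
  have hlt : ∀ k ∈ (K : Set (E n)), dist (projH u k) (-(t • w)) ^ 2 < q := by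
    intro k hk
    have h1 := mem_image_of_mem (projH u) hk
    rw [hnorm _ (inner_projH hu k), hq]
    have h2 : ‖projH u k‖ ^ 2 ≤ M ^ 2 := pow_le_pow_left₀ (norm_nonneg _) (hM _ h1) 2
    have h3 := hfs _ h1
    have h4 : 2 * t * f (projH u k) < 2 * t * s := mul_lt_mul_of_pos_left h3 (by positivity)
    linarith
  obtain ⟨k₀, hk₀⟩ := K.nonempty
  have hq0 : 0 < q := (sq_nonneg _).trans_lt (hlt k₀ hk₀)
  refine ⟨-(t • w), by rw [inner_neg_right, inner_smul_right, huw]; simp, Real.sqrt q,
    Real.sqrt_pos.2 hq0, fun k hk => Real.le_sqrt_of_sq_le (hlt k hk).le, ?_⟩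
  rw [Real.sqrt_lt' ]
  · rw [hnorm x hxu, hq]
    nlinarith [sq_nonneg ‖x‖]
  · by_contra h0
    rw [not_lt] at h0
    have h1 := hnorm x hxu
    have h2 : dist x (-(t • w)) = 0 := le_antisymm h0 dist_nonneg
    rw [h2] at h1
    nlinarith [sq_nonneg ‖x‖]

/-! ### The reduction -/

section

variable {B : Set (ConvexBody (E n))} {u : E n}

theorem projection_subset (hu : ‖u‖ = 1) (hB : fullBodies n ⊆ B) (S : B → B) (hS : Monotonic S)
    (hC : CylinderInvariant u S) (K : B) (hK : K.1 ∈ fullBodies n) :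
    projH u '' ((S K).1 : Set (E n)) ⊆ projH u '' (K.1 : Set (E n)) := by
  rintro _ ⟨k, hk, rfl⟩
  by_contra hx
  obtain ⟨c, hc, r, hr, hcr, hxc⟩ := exists_ball hu K.1 (inner_projH hu k) hx
  obtain ⟨R, hR⟩ := exists_norm_le K.1.isCompact
  have hKC : (K.1 : Set (E n)) ⊆ cyl u c r |R| := by
    intro x hx
    refine ⟨hcr x hx, ?_⟩
    refine (abs_real_inner_le_norm _ _).trans ?_
    rw [hu, one_mul]
    exact (hR x hx).trans (le_abs_self R)
  let C : ConvexBody (E n) :=
    { carrier := cyl u c r |R|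
      convex' := cyl_convex u c r |R|
      isCompact' := cyl_isCompact hu r |R|
      nonempty' := K.1.nonempty.mono hKC }
  have hCB : C ∈ B := hB (Set.Nonempty.mono (interior_mono hKC) hK)
  have h1 : S ⟨C, hCB⟩ = ⟨C, hCB⟩ :=
    hC ⟨C, hCB⟩ ⟨c, hc, r, hr, |R|, abs_nonneg R, cyl_eq hu r |R|⟩
  have h2 := hS K ⟨C, hCB⟩ hKC hk
  rw [h1] at h2
  exact absurd h2.1 (not_le.2 hxc)

theorem cylinder_projection (hu : ‖u‖ = 1) (hB : fullBodies n ⊆ B) (S : B → B)
    (hS : Monotonic S) (hC : CylinderInvariant u S) (K : B) (hK : K.1 ∈ fullBodies n) :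
    projH u '' ((S K).1 : Set (E n)) = projH u '' (K.1 : Set (E n)) := by
  refine Subset.antisymm (projection_subset hu hB S hS hC K hK) ?_
  rintro _ ⟨p, hp, rfl⟩
  have hcl : IsClosed (projH u '' ((S K).1 : Set (E n))) :=
    ((S K).1.isCompact.image (continuous_projH u)).isClosed
  rw [← hcl.closure_eq, Metric.mem_closure_iff]
  intro ε hε
  obtain ⟨R, hR⟩ := exists_norm_le K.1.isCompact
  set η : ℝ := min 1 (ε / (2 * |R| + 1)) with hη
  have hR1 : 0 < 2 * |R| + 1 := by positivity
  have hη0 : 0 < η := lt_min one_pos (div_pos hε hR1)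
  have hη1 : η ≤ 1 := min_le_left _ _
  have hηε : η * (2 * |R|) < ε := by
    have h1 : η * (2 * |R|) ≤ ε / (2 * |R| + 1) * (2 * |R|) :=
      mul_le_mul_of_nonneg_right (min_le_right _ _) (by positivity)
    refine h1.trans_lt ?_
    rw [div_mul_eq_mul_div, div_lt_iff₀ hR1]
    nlinarith
  -- the homothetic copy
  have hf : Continuous fun x : E n => (1 - η) • p + η • x := by fun_prop
  let K' : ConvexBody (E n) :=
    { carrier := (fun x => (1 - η) • p + η • x) '' (K.1 : Set (E n))
      convex' := by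
        have h1 : Convex ℝ ((fun x : E n => η • x) '' (K.1 : Set (E n))) := K.1.convex.smul η
        have h2 := h1.translate ((1 - η) • p)
        rwa [image_image] at h2
      isCompact' := K.1.isCompact.image hf
      nonempty' := K.1.nonempty.image _ }
  have hK'K : (K' : Set (E n)) ⊆ K.1 := by
    rintro _ ⟨x, hx, rfl⟩
    exact K.1.convex hp hx (sub_nonneg.2 hη1) hη0.le (by ring)
  have hK'f : K' ∈ fullBodies n := by
    obtain ⟨x, hx⟩ := hK
    have hopen : IsOpenMap fun x : E n => (1 - η) • p + η • x := by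
      have h1 : IsOpenMap fun x : E n => η • x := isOpenMap_smul₀ hη0.ne'
      exact (isOpenMap_add_left ((1 - η) • p)).comp h1
    refine ⟨(1 - η) • p + η • x, interior_maximal ?_ (hopen _ isOpen_interior) ⟨x, hx, rfl⟩⟩
    exact image_mono interior_subset
  obtain ⟨k, hk⟩ := (S ⟨K', hB hK'f⟩).1.nonempty
  have hkS : k ∈ ((S K).1 : Set (E n)) := hS ⟨K', hB hK'f⟩ K hK'K hk
  refine ⟨projH u k, mem_image_of_mem _ hkS, ?_⟩
  obtain ⟨y, ⟨x, hx, rfl⟩, hyk⟩ := projection_subset hu hB S hS hC ⟨K', hB hK'f⟩ hK'f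
    (mem_image_of_mem _ hk)
  rw [← hyk, dist_eq_norm, ← projHL_apply, ← projHL_apply, ← map_sub, projHL_apply]
  refine (norm_projH_le hu _).trans_lt ?_
  have e : p - ((1 - η) • p + η • x) = η • (p - x) := by
    rw [sub_smul, one_smul, smul_sub]; abel
  simp only
  rw [e, norm_smul, Real.norm_eq_abs, abs_of_pos hη0]
  refine lt_of_le_of_lt ?_ hηε
  refine mul_le_mul_of_nonneg_left ?_ hη0.le
  refine (norm_sub_le _ _).trans ?_
  have h1 := (hR p hp).trans (le_abs_self R)
  have h2 := (hR x hx).trans (le_abs_self R)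
  linarith

/-- The parallel bodies. -/
noncomputable def thick (K : ConvexBody (E n)) (i : ℕ) : ConvexBody (E n) where
  carrier := Metric.cthickening (1 / (i + 1) : ℝ) (K : Set (E n))
  convex' := K.convex.cthickening _
  isCompact' := K.isCompact.cthickening
  nonempty' := K.nonempty.mono (Metric.self_subset_cthickening _)

theorem thick_full (K : ConvexBody (E n)) (i : ℕ) : thick K i ∈ fullBodies n := by
  obtain ⟨x, hx⟩ := K.nonempty
  refine ⟨x, Metric.thickening_subset_interior_cthickening _ _ ?_⟩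
  exact Metric.self_subset_thickening (by positivity) _ hx

theorem thick_antitone (K : ConvexBody (E n)) : Antitone fun i => (thick K i : Set (E n)) := by
  intro i k hik
  refine Metric.cthickening_mono ?_ _
  have : (i : ℝ) ≤ k := by exact_mod_cast hik
  exact one_div_le_one_div_of_le (by positivity) (by linarith)

theorem iInter_thick (K : ConvexBody (E n)) : ⋂ i, (thick K i : Set (E n)) = K := by
  refine Subset.antisymm ?_ (subset_iInter fun i => Metric.self_subset_cthickening _)
  have h1 : (K : Set (E n)) = ⋂ δ > (0 : ℝ), Metric.cthickening δ (K : Set (E n)) := by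
    rw [← Metric.closure_eq_iInter_cthickening, K.isClosed.closure_eq]
  rw [h1]
  intro x hx
  rw [mem_iInter] at hx
  refine mem_iInter₂.2 fun δ hδ => ?_
  obtain ⟨i, hi⟩ := exists_nat_one_div_lt hδ
  exact Metric.cthickening_mono hi.le _ (hx i)

theorem thick_mono {K L : ConvexBody (E n)} (h : (K : Set (E n)) ⊆ L) (i : ℕ) :
    (thick K i : Set (E n)) ⊆ thick L i :=
  Metric.cthickening_subset_of_subset _ h

theorem main (h1 : m + 1 ≤ n) (hm : 1 ≤ m) (hn : m + 2 ≤ n) (hu : ‖u‖ = 1)
    (hB : fullBodies n ⊆ B) (S : B → B) (hsym : ∀ K, HSymmetric u ((S K).1 : Set (E n)))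
    (hS : Monotonic S) (hV : Preserving h1 S)
    (hCP : CylinderInvariant u S ∨ ProjectionInvariant u S) : False := by
  have hP : ∀ K : B, K.1 ∈ fullBodies n →
      projH u '' ((S K).1 : Set (E n)) = projH u '' (K.1 : Set (E n)) := by
    rcases hCP with h | h
    · exact fun K hK => cylinder_projection hu hB S hS h K hK
    · exact fun K _ => h K
  -- the bodies
  let tb : ConvexBody (E n) → ℕ → B := fun K i => ⟨thick K i, hB (thick_full K i)⟩
  have hanti : ∀ K, Antitone fun i => ((S (tb K i)).1 : Set (E n)) := by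
    intro K i k hik
    exact hS _ _ (thick_antitone K hik)
  let S' : ConvexBody (E n) → ConvexBody (E n) := fun K =>
    { carrier := ⋂ i, ((S (tb K i)).1 : Set (E n))
      convex' := convex_iInter fun i => (S (tb K i)).1.convex
      isCompact' := (S (tb K 0)).1.isCompact.of_isClosed_subset
        (isClosed_iInter fun i => (S (tb K i)).1.isClosed) (iInter_subset _ 0)
      nonempty' := IsCompact.nonempty_iInter_of_directed_nonempty_isCompact_isClosed _
        (directed_of_isDirected_le fun i k hik => hanti K hik)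
        (fun i => (S (tb K i)).1.nonempty) (fun i => (S (tb K i)).1.isCompact)
        (fun i => (S (tb K i)).1.isClosed) }
  have hS' : ∀ K, (S' K : Set (E n)) = ⋂ i, ((S (tb K i)).1 : Set (E n)) := fun K => rfl
  obtain ⟨b, hb⟩ := Orthonormal.exists_orthonormalBasis_extension_of_card_eq (𝕜 := ℝ) (E := E n)
    (ι := Fin n) (by simp) (v := fun _ => u) (s := {iU hn}) (by
      rw [orthonormal_iff_ite]
      rintro ⟨i, hi⟩ ⟨k, hk⟩
      rw [mem_singleton_iff] at hi hk
      subst hi
      subst hk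
      rw [if_pos rfl]
      change ⟪u, u⟫ = 1
      rw [real_inner_self_eq_norm_sq, hu, one_pow])
  have hbu : b (iU hn) = u := hb _ rfl
  have hcore : Core h1 (b (iU hn)) S' := by
    rw [hbu]
    refine ⟨fun K k hk => ?_, fun K L hKL => ?_, fun K => ?_, fun K => ?_⟩
    · rw [hS', mem_iInter] at hk ⊢
      intro i
      rw [← hsym (tb K i)]
      exact mem_image_of_mem _ (hk i)
    · rw [hS', hS']
      exact iInter_mono fun i => hS _ _ (thick_mono hKL i)
    · rw [hS', Iv_iInter h1 (fun i => (S (tb K i)).1.isCompact) (hanti K)]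
      have h2 : ∀ i, Iv h1 ((S (tb K i)).1 : Set (E n)) = Iv h1 (thick K i : Set (E n)) :=
        fun i => Iv_eq_of_intrinsicVolume h1 (hV (tb K i))
      simp only [h2]
      rw [← Iv_iInter h1 (fun i => (thick K i).isCompact) (thick_antitone K), iInter_thick]
    · rw [hS', image_iInter (continuous_projH u) (fun i => (S (tb K i)).1.isCompact) (hanti K)]
      have h2 : ∀ i, projH u '' ((S (tb K i)).1 : Set (E n)) =
          projH u '' (thick K i : Set (E n)) := fun i => hP (tb K i) (thick_full K i)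
      simp only [h2]
      rw [← image_iInter (continuous_projH u) (fun i => (thick K i).isCompact) (thick_antitone K),
        iInter_thick]
  exact core_false hm hn b h1 hcore

end

end Pool.Agent.MP_36ea0a_gt
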