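import Pool.Agent.MP_36ea0a_gt.Slice

/-!
# Projections of bodies stretched in the direction `u`
-/

namespace Pool.Agent.MP_36ea0a_gt

open MeasureTheory Set
open scoped ENNReal RealInnerProductSpace

variable {n m : ℕ}

/-- The linear map that multiplies the component in direction `u` by `Λ` (for a unit vector `u`). -/
noncomputable def stretch (u : E n) (Λ : ℝ) : E n →L[ℝ] E n :=
  ContinuousLinearMap.id ℝ (E n) + (Λ - 1) • (innerSL ℝ u).smulRight u

theorem stretch_apply (u : E n) (Λ : ℝ) (x : E n) :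
    stretch u Λ x = x + ((Λ - 1) * ⟪u, x⟫) • u := by
  simp [stretch, smul_smul]

theorem inner_stretch {u : E n} (hu : ‖u‖ = 1) (Λ : ℝ) (x : E n) :
    ⟪u, stretch u Λ x⟫ = Λ * ⟪u, x⟫ := by
  rw [stretch_apply, inner_add_right, inner_smul_right, real_inner_self_eq_norm_sq, hu]
  ring

/-- The map `G` with the component in direction `e` replaced by the component of the argument in
direction `u`. -/
noncomputable def mix (u : E n) (G : E n →L[ℝ] E (m + 1)) (e : E (m + 1)) :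
    E n →L[ℝ] E (m + 1) :=
  G + (innerSL ℝ u - (innerSL ℝ e).comp G).smulRight e

theorem mix_apply (u : E n) (G : E n →L[ℝ] E (m + 1)) (e : E (m + 1)) (x : E n) :
    mix u G e x = G x + (⟪u, x⟫ - ⟪e, G x⟫) • e := by
  simp [mix]

theorem inner_mix {u : E n} {G : E n →L[ℝ] E (m + 1)} {e : E (m + 1)} (he : ‖e‖ = 1) (x : E n) :
    ⟪e, mix u G e x⟫ = ⟪u, x⟫ := by
  rw [mix_apply, inner_add_right, inner_smul_right, real_inner_self_eq_norm_sq, he]
  ring

/-- The error term. -/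
noncomputable def err (m : ℕ) (R : ℝ) : ℝ≥0∞ :=
  ENNReal.ofReal (4 * R) * ENNReal.ofReal (2 * R) ^ m

theorem err_ne_top (m : ℕ) (R : ℝ) : err m R ≠ ⊤ :=
  ENNReal.mul_ne_top ENNReal.ofReal_ne_top (ENNReal.pow_ne_top ENNReal.ofReal_ne_top)

theorem volume_cube (m : ℕ) (R : ℝ) :
    volume {w : Fin m → ℝ | ∀ i, |w i| ≤ R} = ENNReal.ofReal (2 * R) ^ m := by
  have : {w : Fin m → ℝ | ∀ i, |w i| ≤ R} = Set.pi univ fun _ => Icc (-R) R := by
    ext w
    simp only [mem_ofPred_eq, Set.mem_pi, mem_univ, true_imp_iff, mem_Icc, abs_le]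
  rw [this, volume_pi_pi]
  simp only [Real.volume_Icc, Finset.prod_const, Finset.card_univ, Fintype.card_fin]
  congr 2
  ring

section

variable {u : E n} {G : E n →L[ℝ] E (m + 1)} {e : E (m + 1)} {K : Set (E n)}

/-- The slices of the image of a set under a map. -/
theorem slice_image {V : Type*} (F : V → E (m + 1)) (f : V → ℝ) (w' : V → Fin m → ℝ)
    (W : E (m + 1) →L[ℝ] (Fin m → ℝ)) (hf : ∀ k, ⟪e, F k⟫ = f k) (hw : ∀ k, W (F k) = w' k)
    (K : Set V) (w : Fin m → ℝ) :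
    (fun y => ⟪e, y⟫) '' (F '' K ∩ W ⁻¹' {w}) = f '' (K ∩ w' ⁻¹' {w}) := by
  ext a
  constructor
  · rintro ⟨_, ⟨⟨k, hk, rfl⟩, hk'⟩, rfl⟩
    exact ⟨k, ⟨hk, by rw [mem_preimage, ← hw]; exact hk'⟩, (hf k).symm⟩
  · rintro ⟨k, ⟨hk, hk'⟩, rfl⟩
    exact ⟨F k, ⟨mem_image_of_mem _ hk, by rw [mem_preimage, hw]; exact hk'⟩, hf k⟩

theorem shadow_upper (hu : ‖u‖ = 1) (hG : ∀ x, ‖G x‖ ≤ ‖x‖) (he : ‖e‖ = 1)
    (heG : G u = ‖G u‖ • e) (hK : IsCompact K) (hv : Convex ℝ K) {R : ℝ}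
    (hR : ∀ k ∈ K, ‖k‖ ≤ R) {Λ : ℝ} (hΛ : 0 ≤ Λ) :
    volume ((G.comp (stretch u Λ)) '' K) ≤
      ENNReal.ofReal Λ * (ENNReal.ofReal ‖G u‖ * volume (mix u G e '' K)) + err m R := by
  obtain ⟨W, hWe, hWn, hW⟩ := exists_slices e he
  have hWu : W (G u) = 0 := by rw [heG, map_smul, hWe, smul_zero]
  have hw1 : ∀ k, W (G.comp (stretch u Λ) k) = W (G k) := by
    intro k
    rw [ContinuousLinearMap.comp_apply, stretch_apply, map_add, map_add, map_smul, map_smul, hWu,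
      smul_zero, add_zero]
  have hw2 : ∀ k, W (mix u G e k) = W (G k) := by
    intro k
    rw [mix_apply, map_add, map_smul, hWe, smul_zero, add_zero]
  have hc : ⟪e, G u⟫ = ‖G u‖ := by
    rw [heG, inner_smul_right, real_inner_self_eq_norm_sq, he, norm_smul, he]
    simp
  have hf1 : ∀ k, ⟪e, G.comp (stretch u Λ) k⟫ =
      (⟪e, G k⟫ - ‖G u‖ * ⟪u, k⟫) + (Λ * ‖G u‖) * ⟪u, k⟫ := by
    intro k
    rw [ContinuousLinearMap.comp_apply, stretch_apply, map_add, map_smul, inner_add_right,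
      inner_smul_right, hc]
    ring
  rw [(hW _ (hK.image (G.comp (stretch u Λ)).continuous).measurableSet).2,
    (hW _ (hK.image (mix u G e).continuous).measurableSet).2]
  let Kw : (Fin m → ℝ) → Set (E n) := fun w => K ∩ (fun k => W (G k)) ⁻¹' {w}
  have hKw : ∀ w, IsCompact (Kw w) := fun w =>
    hK.inter_right ((isClosed_singleton).preimage (W.continuous.comp G.continuous))
  have hKv : ∀ w, Convex ℝ (Kw w) := fun w =>
    hv.inter ((convex_singleton w).linear_preimage ((W.comp G) : E n →ₗ[ℝ] (Fin m → ℝ)))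
  let t : E n →ₗ[ℝ] ℝ := ((innerSL ℝ e).comp G - ‖G u‖ • innerSL ℝ u : E n →L[ℝ] ℝ)
  let z : E n →ₗ[ℝ] ℝ := (innerSL ℝ u : E n →L[ℝ] ℝ)
  have ht : ∀ k, t k = ⟪e, G k⟫ - ‖G u‖ * ⟪u, k⟫ := fun k => by simp [t]
  have hz : ∀ k, z k = ⟪u, k⟫ := fun k => by simp [z]
  have hzc : ∀ S, ContinuousOn z S := fun S => (innerSL ℝ u).continuous.continuousOn
  have hgu : ‖G u‖ ≤ 1 := (hG u).trans hu.le
  have htR : ∀ k ∈ K, |t k| ≤ 2 * R := by
    intro k hk
    rw [ht]
    have h1 : |⟪e, G k⟫| ≤ ‖k‖ :=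
      (abs_real_inner_le_norm _ _).trans (by rw [he, one_mul]; exact hG k)
    have h2 : |⟪u, k⟫| ≤ ‖k‖ := (abs_real_inner_le_norm _ _).trans (by rw [hu, one_mul])
    have h3 : |‖G u‖ * ⟪u, k⟫| ≤ ‖k‖ := by
      rw [abs_mul, abs_of_nonneg (norm_nonneg _)]
      calc ‖G u‖ * |⟪u, k⟫| ≤ 1 * ‖k‖ := mul_le_mul hgu h2 (abs_nonneg _) zero_le_one
        _ = ‖k‖ := one_mul _
    have h4 := hR k hk
    calc |⟪e, G k⟫ - ‖G u‖ * ⟪u, k⟫| ≤ |⟪e, G k⟫| + |‖G u‖ * ⟪u, k⟫| := abs_sub _ _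
      _ ≤ 2 * R := by linarith
  have hslice1 : ∀ w, (fun y => ⟪e, y⟫) '' (G.comp (stretch u Λ) '' K ∩ W ⁻¹' {w}) =
      (fun k => t k + (Λ * ‖G u‖) * z k) '' Kw w := by
    intro w
    refine slice_image _ _ _ W (fun k => ?_) hw1 K w
    rw [hf1, ht, hz]
  have hslice2 : ∀ w, (fun y => ⟪e, y⟫) '' (mix u G e '' K ∩ W ⁻¹' {w}) = z '' Kw w := by
    intro w
    refine slice_image _ _ _ W (fun k => ?_) hw2 K w
    rw [inner_mix he, hz]
  simp only [hslice1, hslice2]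
  have hcube : ∀ w, (Kw w).Nonempty → w ∈ {w : Fin m → ℝ | ∀ i, |w i| ≤ R} := by
    rintro w ⟨k, hk, hkw⟩ i
    rw [← (show W (G k) = w from hkw)]
    exact (hWn _ i).trans ((hG k).trans (hR k hk))
  have hcm : MeasurableSet {w : Fin m → ℝ | ∀ i, |w i| ≤ R} := by
    have : {w : Fin m → ℝ | ∀ i, |w i| ≤ R} = ⋂ i, {w | |w i| ≤ R} := by ext; simp
    rw [this]
    exact MeasurableSet.iInter fun i =>
      measurableSet_le (measurable_pi_apply i).abs measurable_const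
  have hmain : ∀ w, volume ((fun k => t k + (Λ * ‖G u‖) * z k) '' Kw w) ≤
      ENNReal.ofReal (Λ * ‖G u‖) * volume (z '' Kw w) +
        {w : Fin m → ℝ | ∀ i, |w i| ≤ R}.indicator (fun _ => ENNReal.ofReal (4 * R)) w := by
    intro w
    rcases (Kw w).eq_empty_or_nonempty with h0 | h0
    · rw [h0]; simp
    · rw [indicator_of_mem (hcube w h0)]
      have := line_upper (hKw w) (hKv w) h0 t z (hzc _) (mul_nonneg hΛ (norm_nonneg (G u)))
        (R := 2 * R) fun k hk => htR k hk.1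
      rwa [show 2 * (2 * R) = 4 * R by ring] at this
  refine (lintegral_mono hmain).trans ?_
  rw [lintegral_add_right _ (measurable_const.indicator hcm),
    lintegral_const_mul' _ _ ENNReal.ofReal_ne_top, lintegral_indicator_const hcm, volume_cube,
    ENNReal.ofReal_mul hΛ, mul_assoc]
  rfl

theorem shadow_lower (he : ‖e‖ = 1)
    (heG : G u = ‖G u‖ • e) (hK : IsCompact K) (hv : Convex ℝ K) {Λ : ℝ} (hΛ : 0 ≤ Λ) :
    2 * (ENNReal.ofReal Λ * (ENNReal.ofReal ‖G u‖ * volume (mix u G e '' K))) ≤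
      volume ((G.comp (stretch u Λ)) '' K) + volume ((G.comp (stretch u (-Λ))) '' K) := by
  obtain ⟨W, hWe, hWn, hW⟩ := exists_slices e he
  have hWu : W (G u) = 0 := by rw [heG, map_smul, hWe, smul_zero]
  have hw1 : ∀ Λ k, W (G.comp (stretch u Λ) k) = W (G k) := by
    intro Λ k
    rw [ContinuousLinearMap.comp_apply, stretch_apply, map_add, map_add, map_smul, map_smul, hWu,
      smul_zero, add_zero]
  have hw2 : ∀ k, W (mix u G e k) = W (G k) := by
    intro k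
    rw [mix_apply, map_add, map_smul, hWe, smul_zero, add_zero]
  have hc : ⟪e, G u⟫ = ‖G u‖ := by
    rw [heG, inner_smul_right, real_inner_self_eq_norm_sq, he, norm_smul, he]
    simp
  have hf1 : ∀ Λ k, ⟪e, G.comp (stretch u Λ) k⟫ =
      (⟪e, G k⟫ - ‖G u‖ * ⟪u, k⟫) + (Λ * ‖G u‖) * ⟪u, k⟫ := by
    intro Λ k
    rw [ContinuousLinearMap.comp_apply, stretch_apply, map_add, map_smul, inner_add_right,
      inner_smul_right, hc]
    ring
  have hA1 := hW _ (hK.image (G.comp (stretch u Λ)).continuous).measurableSet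
  have hA2 := hW _ (hK.image (G.comp (stretch u (-Λ))).continuous).measurableSet
  rw [hA1.2, hA2.2, (hW _ (hK.image (mix u G e).continuous).measurableSet).2,
    ← lintegral_add_left hA1.1, ← mul_assoc (ENNReal.ofReal Λ), ← ENNReal.ofReal_mul hΛ,
    ← lintegral_const_mul' _ _ ENNReal.ofReal_ne_top,
    ← lintegral_const_mul' _ _ ENNReal.ofNat_ne_top]
  let Kw : (Fin m → ℝ) → Set (E n) := fun w => K ∩ (fun k => W (G k)) ⁻¹' {w}
  have hKw : ∀ w, IsCompact (Kw w) := fun w =>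
    hK.inter_right ((isClosed_singleton).preimage (W.continuous.comp G.continuous))
  have hKv : ∀ w, Convex ℝ (Kw w) := fun w =>
    hv.inter ((convex_singleton w).linear_preimage ((W.comp G) : E n →ₗ[ℝ] (Fin m → ℝ)))
  let t : E n →ₗ[ℝ] ℝ := ((innerSL ℝ e).comp G - ‖G u‖ • innerSL ℝ u : E n →L[ℝ] ℝ)
  let z : E n →ₗ[ℝ] ℝ := (innerSL ℝ u : E n →L[ℝ] ℝ)
  have ht : ∀ k, t k = ⟪e, G k⟫ - ‖G u‖ * ⟪u, k⟫ := fun k => by simp [t]
  have hz : ∀ k, z k = ⟪u, k⟫ := fun k => by simp [z]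
  have hzc : ∀ S, ContinuousOn z S := fun S => (innerSL ℝ u).continuous.continuousOn
  refine lintegral_mono fun w => ?_
  have hslice1 : (fun y => ⟪e, y⟫) '' (G.comp (stretch u Λ) '' K ∩ W ⁻¹' {w}) =
      (fun k => t k + (Λ * ‖G u‖) * z k) '' Kw w := by
    refine slice_image _ _ _ W (fun k => ?_) (hw1 Λ) K w
    rw [hf1, ht, hz]
  have hslice1' : (fun y => ⟪e, y⟫) '' (G.comp (stretch u (-Λ)) '' K ∩ W ⁻¹' {w}) =
      (fun k => t k - (Λ * ‖G u‖) * z k) '' Kw w := by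
    refine slice_image _ _ _ W (fun k => ?_) (hw1 (-Λ)) K w
    rw [hf1, ht, hz]
    ring
  have hslice2 : (fun y => ⟪e, y⟫) '' (mix u G e '' K ∩ W ⁻¹' {w}) = z '' Kw w := by
    refine slice_image _ _ _ W (fun k => ?_) hw2 K w
    rw [inner_mix he, hz]
  simp only [hslice1, hslice1', hslice2]
  exact line_lower (hKw w) (hKv w) t z (hzc _) (mul_nonneg hΛ (norm_nonneg (G u)))

/-- Comparison of a body above the hyperplane with its Steiner symmetral. -/
theorem shadow_compare (hu : ‖u‖ = 1) (he : ‖e‖ = 1) {T S : Set (E n)} (hT : IsCompact T)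
    (hTv : Convex ℝ T) (hS : IsCompact S) (hT0 : ∀ k ∈ T, 0 ≤ ⟪u, k⟫)
    (hTS : ∀ k ∈ T, stretch u (1 / 2) k ∈ S ∧ stretch u (-(1 / 2)) k ∈ S)
    (heG : G u = ‖G u‖ • e) :
    volume (mix u G e '' T) ≤ volume (mix u G e '' S) := by
  obtain ⟨W, hWe, hWn, hW⟩ := exists_slices e he
  have hWu : W (G u) = 0 := by rw [heG, map_smul, hWe, smul_zero]
  have hw1 : ∀ Λ k, W (G (stretch u Λ k)) = W (G k) := by
    intro Λ k
    rw [stretch_apply, map_add, map_add, map_smul, map_smul, hWu, smul_zero, add_zero]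
  have hw2 : ∀ k, W (mix u G e k) = W (G k) := by
    intro k
    rw [mix_apply, map_add, map_smul, hWe, smul_zero, add_zero]
  rw [(hW _ (hT.image (mix u G e).continuous).measurableSet).2,
    (hW _ (hS.image (mix u G e).continuous).measurableSet).2]
  refine lintegral_mono fun w => ?_
  let z : E n →ₗ[ℝ] ℝ := (innerSL ℝ u : E n →L[ℝ] ℝ)
  have hz : ∀ k, z k = ⟪u, k⟫ := fun k => by simp [z]
  have hzc : ∀ S, ContinuousOn z S := fun S => (innerSL ℝ u).continuous.continuousOn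
  have hslice : ∀ T : Set (E n), (fun y => ⟪e, y⟫) '' (mix u G e '' T ∩ W ⁻¹' {w}) =
      z '' (T ∩ (fun k => W (G k)) ⁻¹' {w}) := by
    intro T
    refine slice_image _ _ _ W (fun k => ?_) hw2 T w
    rw [inner_mix he, hz]
  simp only [hslice]
  refine line_compare (hT.inter_right ((isClosed_singleton).preimage
    (W.continuous.comp G.continuous))) (hTv.inter ((convex_singleton w).linear_preimage
      ((W.comp G) : E n →ₗ[ℝ] (Fin m → ℝ)))) z (hzc _) (fun k hk => ?_) (fun k hk => ?_)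
  · rw [hz]; exact hT0 k hk.1
  · obtain ⟨h1, h2⟩ := hTS k hk.1
    refine ⟨⟨_, ⟨h1, ?_⟩, ?_⟩, ⟨_, ⟨h2, ?_⟩, ?_⟩⟩
    · rw [mem_preimage, hw1]; exact hk.2
    · rw [hz, hz, inner_stretch hu]; ring
    · rw [mem_preimage, hw1]; exact hk.2
    · rw [hz, hz, inner_stretch hu]; ring

/-- The volume of a body thickened in one direction. -/
theorem thicken (q : E (m + 1)) {A B : Set (E (m + 1))} (hA : IsCompact A) (hAv : Convex ℝ A)
    (hB : MeasurableSet B) (hBA : ∀ y ∈ B, ∃ a ∈ A, ∃ s ∈ Icc (0 : ℝ) 1, y = a + s • q) {R : ℝ}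
    (hR : ∀ a ∈ A, ‖a‖ ≤ R) :
    volume B ≤ volume A + ENNReal.ofReal ‖q‖ * ENNReal.ofReal (2 * R) ^ m := by
  rcases eq_or_ne q 0 with rfl | hq
  · refine (measure_mono fun y hy => ?_).trans (le_add_of_nonneg_right zero_le)
    obtain ⟨a, ha, s, -, rfl⟩ := hBA y hy
    simpa using ha
  set e : E (m + 1) := ‖q‖⁻¹ • q with hedef
  have hq' : ‖q‖ ≠ 0 := norm_ne_zero_iff.2 hq
  have he : ‖e‖ = 1 := by
    rw [hedef, norm_smul, norm_inv, norm_norm, inv_mul_cancel₀ hq']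
  have hqe : q = ‖q‖ • e := by rw [hedef, smul_smul, mul_inv_cancel₀ hq', one_smul]
  obtain ⟨W, hWe, hWn, hW⟩ := exists_slices e he
  have hWq : W q = 0 := by rw [hqe, map_smul, hWe, smul_zero]
  have heq : ⟪e, q⟫ = ‖q‖ := by
    conv_lhs => rw [hqe]
    rw [inner_smul_right, real_inner_self_eq_norm_sq, he]
    simp
  rw [(hW B hB).2, (hW A hA.measurableSet).2]
  have hcm : MeasurableSet {w : Fin m → ℝ | ∀ i, |w i| ≤ R} := by
    have : {w : Fin m → ℝ | ∀ i, |w i| ≤ R} = ⋂ i, {w | |w i| ≤ R} := by ext; simp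
    rw [this]
    exact MeasurableSet.iInter fun i =>
      measurableSet_le (measurable_pi_apply i).abs measurable_const
  have hmain : ∀ w, volume ((fun y => ⟪e, y⟫) '' (B ∩ W ⁻¹' {w})) ≤
      volume ((fun y => ⟪e, y⟫) '' (A ∩ W ⁻¹' {w})) +
        {w : Fin m → ℝ | ∀ i, |w i| ≤ R}.indicator (fun _ => ENNReal.ofReal ‖q‖) w := by
    intro w
    let z : E (m + 1) →ₗ[ℝ] ℝ := (innerSL ℝ e : E (m + 1) →L[ℝ] ℝ)
    have hzfun : (fun y => ⟪e, y⟫) = ⇑z := by ext k; simp [z]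
    have hAw : IsCompact (A ∩ W ⁻¹' {w}) :=
      hA.inter_right ((isClosed_singleton).preimage W.continuous)
    have hAwv : Convex ℝ (A ∩ W ⁻¹' {w}) :=
      hAv.inter ((convex_singleton w).linear_preimage (W : E (m + 1) →ₗ[ℝ] (Fin m → ℝ)))
    rcases (A ∩ W ⁻¹' {w}).eq_empty_or_nonempty with h0 | h0
    · have : B ∩ W ⁻¹' {w} = ∅ := by
        rw [eq_empty_iff_forall_notMem]
        rintro y ⟨hy, hyw⟩
        obtain ⟨a, ha, s, -, rfl⟩ := hBA y hy
        have : a ∈ A ∩ W ⁻¹' {w} := by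
          refine ⟨ha, ?_⟩
          rw [mem_preimage, map_add, map_smul, hWq, smul_zero, add_zero] at hyw
          exact hyw
        rw [h0] at this
        exact this
      rw [this]
      simp
    · obtain ⟨a₁, h₁, a₂, h₂, h12, him⟩ := exists_min_max hAw hAwv h0 z
        (innerSL ℝ e).continuous.continuousOn
      have hwc : w ∈ {w : Fin m → ℝ | ∀ i, |w i| ≤ R} := by
        intro i
        rw [← (show W a₁ = w from h₁.2)]
        exact (hWn _ i).trans (hR _ h₁.1)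
      rw [indicator_of_mem hwc, hzfun, him, Real.volume_Icc,
        ← ENNReal.ofReal_add (sub_nonneg.2 h12) (norm_nonneg q)]
      have hsub : z '' (B ∩ W ⁻¹' {w}) ⊆ Icc (z a₁) (z a₂ + ‖q‖) := by
        rintro _ ⟨y, ⟨hy, hyw⟩, rfl⟩
        obtain ⟨a, ha, s, hs, rfl⟩ := hBA y hy
        have haw : a ∈ A ∩ W ⁻¹' {w} := by
          refine ⟨ha, ?_⟩
          rw [mem_preimage, map_add, map_smul, hWq, smul_zero, add_zero] at hyw
          exact hyw
        have h3 : z a ∈ Icc (z a₁) (z a₂) := him ▸ mem_image_of_mem z haw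
        have h4 : z (a + s • q) = z a + s * ‖q‖ := by
          rw [map_add, map_smul, smul_eq_mul, show z q = ‖q‖ from heq]
        rw [h4]
        have h5 : s * ‖q‖ ≤ ‖q‖ := mul_le_of_le_one_left (norm_nonneg q) hs.2
        have h6 : 0 ≤ s * ‖q‖ := mul_nonneg hs.1 (norm_nonneg q)
        exact ⟨by linarith [h3.1], by linarith [h3.2]⟩
      refine (measure_mono hsub).trans ?_
      rw [Real.volume_Icc]
      exact ENNReal.ofReal_le_ofReal (by linarith)
  refine (lintegral_mono hmain).trans ?_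
  rw [lintegral_add_right _ (measurable_const.indicator hcm), lintegral_indicator_const hcm,
    volume_cube]

end

end Pool.Agent.MP_36ea0a_gt
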