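import Pool.Agent.MP_36ea0a_gt.Defs

/-!
# Slices of convex sets in a given direction
-/

namespace Pool.Agent.MP_36ea0a_gt

open MeasureTheory Set
open scoped ENNReal RealInnerProductSpace

/-- Fubini's theorem for the decomposition of `ℝᵐ⁺¹` given by a unit vector `e`. -/
theorem exists_slices {m : ℕ} (e : E (m + 1)) (he : ‖e‖ = 1) :
    ∃ W : E (m + 1) →L[ℝ] (Fin m → ℝ), W e = 0 ∧ (∀ y i, |W y i| ≤ ‖y‖) ∧
      ∀ A : Set (E (m + 1)), MeasurableSet A →
        (Measurable fun w => volume ((fun y => ⟪e, y⟫) '' (A ∩ W ⁻¹' {w}))) ∧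
        volume A = ∫⁻ w, volume ((fun y => ⟪e, y⟫) '' (A ∩ W ⁻¹' {w})) := by
  set e0 : E (m + 1) := EuclideanSpace.single 0 1 with he0def
  have he0 : ‖e0‖ = 1 := by simp [e0]
  obtain ⟨φ, hφ⟩ : ∃ φ : E (m + 1) ≃ₗᵢ[ℝ] E (m + 1), φ e = e0 :=
    ⟨_, Submodule.reflection_sub (he.trans he0.symm)⟩
  let W : E (m + 1) →L[ℝ] (Fin m → ℝ) :=
    ContinuousLinearMap.pi fun i =>
      (EuclideanSpace.proj (𝕜 := ℝ) i.succ).comp (φ.toContinuousLinearEquiv : E (m + 1) →L[ℝ] _)
  have hW : ∀ y i, W y i = φ y i.succ := fun y i => rfl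
  have hin : ∀ y, ⟪e, y⟫ = φ y 0 := by
    intro y
    rw [← φ.inner_map_map e y, hφ, he0def, EuclideanSpace.inner_single_left]
    simp
  refine ⟨W, ?_, ?_, ?_⟩
  · ext i
    rw [hW, hφ, he0def]
    simp
  · intro y i
    rw [hW, ← Real.norm_eq_abs]
    exact (PiLp.norm_apply_le (φ y) i.succ).trans (le_of_eq (φ.norm_map y))
  · intro A hA
    let Θ : E (m + 1) ≃ᵐ ℝ × (Fin m → ℝ) :=
      (φ.toHomeomorph.toMeasurableEquiv.trans (MeasurableEquiv.toLp 2 (Fin (m + 1) → ℝ)).symm).trans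
        (MeasurableEquiv.piFinSuccAbove (fun _ => ℝ) 0)
    have hΘ : MeasurePreserving Θ volume volume :=
      (volume_preserving_piFinSuccAbove (fun _ : Fin (m + 1) => ℝ) 0).comp
        ((PiLp.volume_preserving_ofLp (Fin (m + 1))).comp φ.measurePreserving)
    have h1 : volume A = volume (Θ.symm ⁻¹' A) :=
      (hΘ.symm.measure_preimage hA.nullMeasurableSet).symm
    have hA' : MeasurableSet (Θ.symm ⁻¹' A) := Θ.symm.measurable hA
    have hΘy : ∀ y, Θ y = (⟪e, y⟫, W y) := by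
      intro y
      rw [hin]
      rfl
    have key : ∀ w, (fun a => (a, w)) ⁻¹' (Θ.symm ⁻¹' A) =
        (fun y => ⟪e, y⟫) '' (A ∩ W ⁻¹' {w}) := by
      intro w
      ext a
      constructor
      · intro ha
        refine ⟨Θ.symm (a, w), ⟨ha, ?_⟩, ?_⟩
        · have := hΘy (Θ.symm (a, w))
          rw [Θ.apply_symm_apply] at this
          exact (Prod.ext_iff.1 this).2.symm
        · have := hΘy (Θ.symm (a, w))
          rw [Θ.apply_symm_apply] at this
          exact (Prod.ext_iff.1 this).1.symm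
      · rintro ⟨y, ⟨hy, hw⟩, rfl⟩
        have h2 : Θ y = (⟪e, y⟫, w) := by
          rw [hΘy, show W y = w from hw]
        have h3 : Θ.symm (⟪e, y⟫, w) = y := by rw [← h2, Θ.symm_apply_apply]
        change Θ.symm (⟪e, y⟫, w) ∈ A
        rw [h3]
        exact hy
    rw [h1, Measure.volume_eq_prod, Measure.prod_apply_symm hA']
    simp only [← key]
    exact ⟨measurable_measure_prodMk_right hA', trivial⟩

/-! ## Inequalities on the real line -/

section line

variable {V : Type*} [AddCommGroup V] [Module ℝ V] [TopologicalSpace V]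

theorem exists_min_max {K : Set V} (hK : IsCompact K) (hv : Convex ℝ K) (hne : K.Nonempty)
    (z : V →ₗ[ℝ] ℝ) (hz : ContinuousOn z K) :
    ∃ k₁ ∈ K, ∃ k₂ ∈ K, z k₁ ≤ z k₂ ∧ z '' K = Icc (z k₁) (z k₂) := by
  obtain ⟨k₁, h₁, hmin⟩ := hK.exists_isMinOn hne hz
  obtain ⟨k₂, h₂, hmax⟩ := hK.exists_isMaxOn hne hz
  refine ⟨k₁, h₁, k₂, h₂, hmin h₂, Subset.antisymm ?_ ?_⟩
  · rintro _ ⟨k, hk, rfl⟩
    exact ⟨hmin hk, hmax hk⟩
  · have : (z '' K).OrdConnected := (hv.linear_image z).ordConnected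
    exact this.out (mem_image_of_mem z h₁) (mem_image_of_mem z h₂)

theorem line_upper {K : Set V} (hK : IsCompact K) (hv : Convex ℝ K) (hne : K.Nonempty)
    (t z : V →ₗ[ℝ] ℝ) (hz : ContinuousOn z K) {c R : ℝ} (hc : 0 ≤ c) (hR : ∀ k ∈ K, |t k| ≤ R) :
    volume ((fun k => t k + c * z k) '' K) ≤
      ENNReal.ofReal c * volume (z '' K) + ENNReal.ofReal (2 * R) := by
  obtain ⟨k₁, h₁, k₂, h₂, h12, him⟩ := exists_min_max hK hv hne z hz
  have hR0 : 0 ≤ R := (abs_nonneg _).trans (hR k₁ h₁)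
  have hsub : (fun k => t k + c * z k) '' K ⊆ Icc (c * z k₁ - R) (c * z k₂ + R) := by
    rintro _ ⟨k, hk, rfl⟩
    have h3 : z k ∈ Icc (z k₁) (z k₂) := him ▸ mem_image_of_mem z hk
    have h4 := abs_le.1 (hR k hk)
    have h5 := mul_le_mul_of_nonneg_left h3.1 hc
    have h6 := mul_le_mul_of_nonneg_left h3.2 hc
    exact ⟨by simp only; linarith [h4.1], by simp only; linarith [h4.2]⟩
  refine (measure_mono hsub).trans ?_
  rw [him, Real.volume_Icc, Real.volume_Icc, ← ENNReal.ofReal_mul hc,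
    ← ENNReal.ofReal_add (mul_nonneg hc (sub_nonneg.2 h12)) (by linarith)]
  exact ENNReal.ofReal_le_ofReal (by linarith)

omit [TopologicalSpace V] in
theorem line_segment {K : Set V} (hv : Convex ℝ K) (f : V →ₗ[ℝ] ℝ) {k₁ k₂ : V} (h₁ : k₁ ∈ K)
    (h₂ : k₂ ∈ K) : ENNReal.ofReal (f k₂ - f k₁) ≤ volume (f '' K) := by
  have : (f '' K).OrdConnected := (hv.linear_image f).ordConnected
  rw [← Real.volume_Icc]
  exact measure_mono (this.out (mem_image_of_mem f h₁) (mem_image_of_mem f h₂))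

theorem line_lower {K : Set V} (hK : IsCompact K) (hv : Convex ℝ K)
    (t z : V →ₗ[ℝ] ℝ) (hz : ContinuousOn z K) {c : ℝ} (hc : 0 ≤ c) :
    2 * (ENNReal.ofReal c * volume (z '' K)) ≤
      volume ((fun k => t k + c * z k) '' K) + volume ((fun k => t k - c * z k) '' K) := by
  rcases K.eq_empty_or_nonempty with rfl | hne
  · simp
  obtain ⟨k₁, h₁, k₂, h₂, h12, him⟩ := exists_min_max hK hv hne z hz
  have e1 := line_segment hv (t + c • z) h₁ h₂
  have e2 := line_segment hv (t - c • z) h₂ h₁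
  have f1 : (⇑(t + c • z) : V → ℝ) = fun k => t k + c * z k := by
    ext k; simp
  have f2 : (⇑(t - c • z) : V → ℝ) = fun k => t k - c * z k := by
    ext k; simp
  rw [f1] at e1
  rw [f2] at e2
  refine le_trans ?_ (add_le_add e1 e2)
  have h0 : 0 ≤ c * (z k₂ - z k₁) := mul_nonneg hc (sub_nonneg.2 h12)
  rw [him, Real.volume_Icc, ← ENNReal.ofReal_mul hc, two_mul, ← ENNReal.ofReal_add h0 h0]
  refine le_trans (ENNReal.ofReal_le_ofReal ?_) ENNReal.ofReal_add_le
  simp only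
  linarith

theorem line_compare {K : Set V} (hK : IsCompact K) (hv : Convex ℝ K) (z : V →ₗ[ℝ] ℝ)
    (hz : ContinuousOn z K) (h0 : ∀ k ∈ K, 0 ≤ z k) {B : Set ℝ}
    (hB : ∀ k ∈ K, z k / 2 ∈ B ∧ -(z k / 2) ∈ B) : volume (z '' K) ≤ volume B := by
  rcases K.eq_empty_or_nonempty with rfl | hne
  · simp
  obtain ⟨k₁, h₁, k₂, h₂, h12, him⟩ := exists_min_max hK hv hne z hz
  have hk1 := h0 k₁ h₁
  have hsub : Ioc (z k₁ / 2) (z k₂ / 2) ∪ Ico (-(z k₂ / 2)) (-(z k₁ / 2)) ⊆ B := by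
    rintro a (ha | ha)
    · have : 2 * a ∈ z '' K := by rw [him]; exact ⟨by linarith [ha.1], by linarith [ha.2]⟩
      obtain ⟨k, hk, hka⟩ := this
      have := (hB k hk).1
      rwa [hka, mul_div_cancel_left₀ a two_ne_zero] at this
    · have : -2 * a ∈ z '' K := by rw [him]; exact ⟨by linarith [ha.2], by linarith [ha.1]⟩
      obtain ⟨k, hk, hka⟩ := this
      have := (hB k hk).2
      rw [hka] at this
      have e : -(-2 * a / 2) = a := by ring
      rwa [e] at this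
  have hdisj : Disjoint (Ioc (z k₁ / 2) (z k₂ / 2)) (Ico (-(z k₂ / 2)) (-(z k₁ / 2))) := by
    rw [Set.disjoint_left]
    intro a ha ha'
    linarith [ha.1, ha'.2]
  refine le_trans ?_ (measure_mono hsub)
  rw [measure_union hdisj measurableSet_Ico, him, Real.volume_Icc, Real.volume_Ioc,
    Real.volume_Ico, ← ENNReal.ofReal_add (by linarith) (by linarith)]
  exact ENNReal.ofReal_le_ofReal (by linarith)

end line

end Pool.Agent.MP_36ea0a_gt
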