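import Pool.Agent.MP_36ea0a_gt.Box

/-!
# Strict monotonicity
-/

namespace Pool.Agent.MP_36ea0a_gt

open MeasureTheory Set Filter Topology
open scoped ENNReal RealInnerProductSpace

variable {n j m : ℕ}

theorem strict_volume {A B : Set (E j)} (hA : IsCompact A) (hAi : (interior A).Nonempty)
    (hB : Convex ℝ B) (hAB : A ⊆ B) {q : E j} (hqB : q ∈ B) (hqA : q ∉ A) :
    volume A < volume B := by
  obtain ⟨x₀, hx₀⟩ := hAi
  obtain ⟨r, hr, hrA⟩ := Metric.isOpen_iff.1 isOpen_interior x₀ hx₀
  obtain ⟨ρ, hρ, hρA⟩ := Metric.isOpen_iff.1 hA.isClosed.isOpen_compl q hqA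
  obtain ⟨t, ht0, ht1, ht⟩ : ∃ t : ℝ, 0 < t ∧ t ≤ 1 ∧ t * (dist x₀ q + r) < ρ := by
    have hpos : 0 < dist x₀ q + r + 1 := by positivity
    refine ⟨min 1 (ρ / (dist x₀ q + r + 1)), lt_min one_pos (div_pos hρ hpos), min_le_left _ _, ?_⟩
    have h1 : min 1 (ρ / (dist x₀ q + r + 1)) * (dist x₀ q + r) ≤
        ρ / (dist x₀ q + r + 1) * (dist x₀ q + r) :=
      mul_le_mul_of_nonneg_right (min_le_right _ _) (by positivity)
    refine h1.trans_lt ?_
    rw [div_mul_eq_mul_div, div_lt_iff₀ hpos]
    nlinarith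
  set V : Set (E j) := Metric.ball (q + t • (x₀ - q)) (t * r) with hV
  have hVo : IsOpen V := Metric.isOpen_ball
  have hVn : V.Nonempty := ⟨_, Metric.mem_ball_self (mul_pos ht0 hr)⟩
  have hVB : V ⊆ B := by
    intro y hy
    have h1 : q + t⁻¹ • (y - q) ∈ A := by
      apply interior_subset
      apply hrA
      rw [Metric.mem_ball, dist_eq_norm] at hy ⊢
      have h2 : q + t⁻¹ • (y - q) - x₀ = t⁻¹ • (y - (q + t • (x₀ - q))) := by
        have h3 : t⁻¹ • (y - (q + t • (x₀ - q))) = t⁻¹ • (y - q) - (t⁻¹ * t) • (x₀ - q) := by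
          rw [mul_smul, ← smul_sub]
          congr 1
          abel
        rw [h3, inv_mul_cancel₀ ht0.ne', one_smul]
        abel
      rw [h2, norm_smul, norm_inv, Real.norm_eq_abs, abs_of_pos ht0, inv_mul_lt_iff₀ ht0]
      exact hy
    have h4 := hB hqB (hAB h1) (sub_nonneg.2 ht1) ht0.le (by ring)
    convert h4 using 1
    rw [smul_add, smul_smul, mul_inv_cancel₀ ht0.ne', one_smul, ← add_assoc, ← add_smul]
    simp
  have hVA : Disjoint A V := by
    rw [Set.disjoint_right]
    intro y hy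
    apply hρA
    rw [Metric.mem_ball] at hy ⊢
    calc dist y q ≤ dist y (q + t • (x₀ - q)) + dist (q + t • (x₀ - q)) q := dist_triangle _ _ _
      _ < t * r + t * dist x₀ q := by
        refine add_lt_add_of_lt_of_le hy (le_of_eq ?_)
        rw [dist_eq_norm, add_sub_cancel_left, norm_smul, Real.norm_eq_abs, abs_of_pos ht0,
          ← dist_eq_norm]
      _ = t * (dist x₀ q + r) := by ring
      _ < ρ := ht
  calc volume A < volume A + volume V :=
        ENNReal.lt_add_right hA.measure_lt_top.ne (hVo.measure_pos _ hVn).ne'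
    _ = volume (A ∪ V) := (measure_union hVA hVo.measurableSet).symm
    _ ≤ volume B := measure_mono (union_subset hAB hVB)

/-! ### The distinguished indices -/

/-- The index of the direction `u`. -/
def iU (hn : m + 2 ≤ n) : Fin n := ⟨m, by omega⟩

/-- The index of the direction in which the slopes vary. -/
def iV (hn : m + 2 ≤ n) : Fin n := ⟨m + 1, by omega⟩

/-- The first index. -/
def i0 (hn : m + 2 ≤ n) : Fin n := ⟨0, by omega⟩

theorem iV_ne_iU (hn : m + 2 ≤ n) : iV hn ≠ iU hn := by
  intro h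
  have := congrArg Fin.val h
  simp [iV, iU] at this

section

variable (hm : 1 ≤ m) (hn : m + 2 ≤ n) (b : OB n)

/-- The basis with the vectors at the positions `i0` and `iV` exchanged. -/
noncomputable def swapB : OB n := b.reindex (Equiv.swap (i0 hn) (iV hn))

theorem swapB_apply (i : Fin n) : swapB hn b i = b (Equiv.swap (i0 hn) (iV hn) i) := by
  rw [swapB, OrthonormalBasis.reindex_apply, Equiv.symm_swap]

include hm in
theorem swapB_iU : swapB hn b (iU hn) = b (iU hn) := by
  rw [swapB_apply, Equiv.swap_apply_of_ne_of_ne]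
  · intro h
    have := congrArg Fin.val h
    simp [iU, i0] at this
    omega
  · exact (iV_ne_iU hn).symm

theorem swapB_i0 : swapB hn b (i0 hn) = b (iV hn) := by
  rw [swapB_apply, Equiv.swap_apply_left]

theorem swapB_iV : swapB hn b (iV hn) = b (i0 hn) := by
  rw [swapB_apply, Equiv.swap_apply_right]

theorem swapB_of_ne {i : Fin n} (h0 : i ≠ i0 hn) (h1 : i ≠ iV hn) : swapB hn b i = b i := by
  rw [swapB_apply, Equiv.swap_apply_of_ne_of_ne h0 h1]

/-- The distinguished element of `O(n)`. -/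
noncomputable def g0 : OG n := ofB (swapB hn b)

variable (h1 : m + 1 ≤ n)

theorem coordsL_emb (b' : OB n) :
    (coordsL h1 (ofB b')).comp (emb h1 b') = ContinuousLinearMap.id ℝ (E (m + 1)) := by
  ext s i
  rw [ContinuousLinearMap.comp_apply, coordsL_ofB, inner_emb]
  rfl

include hm in
theorem coordsL_g0_u : coordsL h1 (g0 hn b) (b (iU hn)) = EuclideanSpace.single (Fin.last m) 1 := by
  rw [← swapB_iU hm hn b]
  ext i
  rw [g0, coordsL_ofB, (swapB hn b).inner_eq_ite]
  by_cases hi : i = Fin.last m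
  · rw [if_pos (by rw [hi]; rfl), hi]
    simp
  · rw [if_neg]
    · rw [PiLp.single_apply, if_neg hi]
    · intro h
      apply hi
      have h' := congrArg Fin.val h
      exact Fin.ext h'

include hm in
theorem norm_coordsL_g0_u : ‖coordsL h1 (g0 hn b) (b (iU hn))‖ = 1 := by
  rw [coordsL_g0_u hm hn b h1]
  simp

include hm in
theorem mixg_g0 : mixg h1 (b (iU hn)) (g0 hn b) = coordsL h1 (g0 hn b) := by
  ext1 x
  rw [mixg, mix_apply, dir, norm_coordsL_g0_u hm hn b h1, inv_one, one_smul,
    coordsL_g0_u hm hn b h1, EuclideanSpace.inner_single_left]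
  have h3 : (coordsL h1 (g0 hn b) x) (Fin.last m) = ⟪b (iU hn), x⟫ := by
    rw [g0, coordsL_ofB, ← swapB_iU hm hn b]
    rfl
  rw [h3]
  simp

include hm in
theorem continuousAt_mixg : ContinuousAt (mixg h1 (b (iU hn))) (g0 hn b) := by
  have hc1 : Continuous fun g : OG n => coordsL h1 g (b (iU hn)) :=
    (continuous_coordsL h1).clm_apply continuous_const
  have hd : ContinuousAt (dir h1 (b (iU hn))) (g0 hn b) := by
    refine ContinuousAt.smul (ContinuousAt.inv₀ hc1.norm.continuousAt ?_) hc1.continuousAt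
    rw [norm_coordsL_g0_u hm hn b h1]
    exact one_ne_zero
  have h2 : ContinuousAt (fun g => ((coordsL h1 g, dir h1 (b (iU hn)) g) :
      (E n →L[ℝ] E (m + 1)) × E (m + 1))) (g0 hn b) :=
    (continuous_coordsL h1).continuousAt.prodMk hd
  rw [mixg_eq]
  exact ContinuousAt.comp (continuous_mix (b (iU hn))).continuousAt h2

include hm in
/-- The integral `Pv` is strictly larger for a convex body which contains the given one and a
point above it. -/
theorem Pv_strict {lo hi : Fin n → ℝ} {α β α' β' : ℝ} {L : Set (E n)}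
    (hL : IsCompact L) (hLv : Convex ℝ L)
    (hSL : wedge b (iU hn) (iV hn) lo hi α β α' β' ⊆ L) {p : E n} (hp : p ∈ L)
    (hpS : α' + β' * ⟪b (iV hn), p⟫ < ⟪b (iU hn), p⟫) {k₀ : E n} {r : ℝ} (hr : 0 < r)
    (hk₀ : ∀ s : E (m + 1), (∀ i, |s i| < r) → k₀ + emb h1 (swapB hn b) s ∈
      wedge b (iU hn) (iV hn) lo hi α β α' β')
    (hfin : Pv h1 (b (iU hn)) (wedge b (iU hn) (iV hn) lo hi α β α' β') ≠ ⊤) :
    Pv h1 (b (iU hn)) (wedge b (iU hn) (iV hn) lo hi α β α' β') < Pv h1 (b (iU hn)) L := by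
  set S := wedge b (iU hn) (iV hn) lo hi α β α' β' with hS
  have hSc : IsCompact S := wedge_isCompact (iV_ne_iU hn)
  have hM := continuousAt_mixg hm hn b h1
  -- separation
  have e1 : ∀ᶠ g in 𝓝 (g0 hn b), ∀ k ∈ S, mixg h1 (b (iU hn)) g k ≠ mixg h1 (b (iU hn)) g p := by
    refine hSc.eventually_forall_of_forall_eventually
      (P := fun g k => mixg h1 (b (iU hn)) g k ≠ mixg h1 (b (iU hn)) g p) fun k hk => ?_
    have hc : ContinuousAt (fun z : OG n × E n => mixg h1 (b (iU hn)) z.1 z.2) (g0 hn b, k) := by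
      have : ContinuousAt (fun z : OG n × E n => mixg h1 (b (iU hn)) z.1) (g0 hn b, k) :=
        ContinuousAt.comp (g := mixg h1 (b (iU hn))) (f := Prod.fst) hM continuousAt_fst
      exact this.clm_apply continuousAt_snd
    have hc' : ContinuousAt (fun z : OG n × E n => mixg h1 (b (iU hn)) z.1 p) (g0 hn b, k) := by
      have : ContinuousAt (fun z : OG n × E n => mixg h1 (b (iU hn)) z.1) (g0 hn b, k) :=
        ContinuousAt.comp (g := mixg h1 (b (iU hn))) (f := Prod.fst) hM continuousAt_fst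
      exact this.clm_apply continuousAt_const
    have hne : mixg h1 (b (iU hn)) (g0 hn b) k ≠ mixg h1 (b (iU hn)) (g0 hn b) p := by
      rw [mixg_g0 hm hn b h1]
      intro heq
      have q1 : ⟪b (iV hn), k⟫ = ⟪b (iV hn), p⟫ := by
        have := congrArg (fun y : E (m + 1) => y 0) heq
        simp only [g0, coordsL_ofB] at this
        have h0 : Fin.castLE h1 0 = i0 hn := rfl
        rwa [h0, swapB_i0] at this
      have q2 : ⟪b (iU hn), k⟫ = ⟪b (iU hn), p⟫ := by
        have := congrArg (fun y : E (m + 1) => y (Fin.last m)) heq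
        simp only [g0, coordsL_ofB] at this
        have h0 : Fin.castLE h1 (Fin.last m) = iU hn := rfl
        rwa [h0, swapB_iU hm] at this
      have := hk.2.2
      rw [q1, q2] at this
      exact absurd hpS (not_lt.2 this)
    have hc3 := (hc.sub hc').eventually_ne (y := 0) (by
      intro h0
      exact hne (sub_eq_zero.1 h0))
    filter_upwards [hc3] with z hz h0
    exact hz (sub_eq_zero.2 h0)
  -- nondegeneracy
  have e2 : ∀ᶠ g in 𝓝 (g0 hn b),
      ((mixg h1 (b (iU hn)) g).comp (emb h1 (swapB hn b))).det ≠ 0 := by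
    have hc : ContinuousAt (fun g => ((mixg h1 (b (iU hn)) g).comp (emb h1 (swapB hn b))).det)
        (g0 hn b) := by
      have hdet : Continuous fun T : E (m + 1) →L[ℝ] E (m + 1) => T.det :=
        ContinuousLinearMap.continuous_det
      exact ContinuousAt.comp (g := fun T : E (m + 1) →L[ℝ] E (m + 1) => T.det)
        (f := fun g => (mixg h1 (b (iU hn)) g).comp (emb h1 (swapB hn b))) hdet.continuousAt
        (hM.clm_comp continuousAt_const)
    refine hc.eventually_ne ?_
    rw [mixg_g0 hm hn b h1, g0, coordsL_emb, ContinuousLinearMap.det]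
    simp
  have e3 : ∀ᶠ g in 𝓝 (g0 hn b), coordsL h1 g (b (iU hn)) ≠ 0 := by
    have hc1 : Continuous fun g : OG n => coordsL h1 g (b (iU hn)) :=
      (continuous_coordsL h1).clm_apply continuous_const
    refine hc1.continuousAt.eventually_ne ?_
    rw [← norm_ne_zero_iff, norm_coordsL_g0_u hm hn b h1]
    exact one_ne_zero
  have key : ∀ᶠ g in 𝓝 (g0 hn b), pv h1 (b (iU hn)) S g < pv h1 (b (iU hn)) L g := by
    filter_upwards [e1, e2, e3] with g q1 q2 q3
    have hint : (interior (mixg h1 (b (iU hn)) g '' S)).Nonempty := by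
      set T := (mixg h1 (b (iU hn)) g).comp (emb h1 (swapB hn b)) with hT
      have hsurj : Function.Surjective T := by
        have : LinearMap.det (T : E (m + 1) →ₗ[ℝ] E (m + 1)) ≠ 0 := q2
        exact (LinearMap.equivOfDetNeZero _ this).surjective
      have hopen : IsOpenMap T := T.isOpenMap hsurj
      have hOo : IsOpen {s : E (m + 1) | ∀ i, |s i| < r} := by
        have : {s : E (m + 1) | ∀ i, |s i| < r} = ⋂ i, {s | |s i| < r} := by ext; simp
        rw [this]
        exact isOpen_iInter_of_finite fun i =>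
          isOpen_lt ((EuclideanSpace.proj (𝕜 := ℝ) i).continuous.abs) continuous_const
      have h4 : IsOpen ((fun y => mixg h1 (b (iU hn)) g k₀ + y) '' (T '' {s | ∀ i, |s i| < r})) :=
        (isOpenMap_add_left _) _ (hopen _ hOo)
      refine ⟨mixg h1 (b (iU hn)) g k₀ + T 0, interior_maximal ?_ h4 ?_⟩
      · rintro _ ⟨_, ⟨s, hs, rfl⟩, rfl⟩
        refine ⟨k₀ + emb h1 (swapB hn b) s, hk₀ s hs, ?_⟩
        rw [map_add, hT]
        rfl
      · exact ⟨_, ⟨0, fun i => by simpa using hr, rfl⟩, rfl⟩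
    have hlt := strict_volume (hSc.image (mixg h1 (b (iU hn)) g).continuous) hint
      (hLv.linear_image (mixg h1 (b (iU hn)) g : E n →ₗ[ℝ] E (m + 1)))
      (image_mono hSL) (mem_image_of_mem _ hp) (by
        rintro ⟨k, hk, hkp⟩
        exact q1 k hk hkp)
    refine ENNReal.mul_lt_mul_right ?_ ENNReal.ofReal_ne_top hlt
    rw [Ne, ENNReal.ofReal_eq_zero, not_le]
    exact norm_pos_iff.2 q3
  obtain ⟨U, hU, hUo, hgU⟩ := mem_nhds_iff.1 key
  refine lintegral_strict_mono_of_ae_le_of_ae_lt_on (s := U) (measurable_pv h1 _ hL).aemeasurable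
    hfin (Eventually.of_forall fun g => ?_) (hUo.measure_pos _ ⟨_, hgU⟩).ne'
    (Eventually.of_forall fun g hg => hU hg)
  exact mul_le_mul_right (measure_mono (image_mono hSL)) _

end

end Pool.Agent.MP_36ea0a_gt
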